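import Mathlib
import Pool.Agent.Lib.P0c8ca5By.Defs

/-!
# Surfaces of higher genus: definitions

* `kc x`: the number of the pairs `(a, b)` with `[a, b] = x`; `kE k A = ∑ [a, b]` in the group algebra.
* `cvj j f`: the product of `f` and `j` factors `kc` in the group ring.
* `prc t`: the product of the commutators `[a_i, b_i]` of a tuple `t : Fin h ⊕ Fin h → A`,
  `a_i = t (inl i)`, `b_i = t (inr i)`; `wG h m`: the tuples, weighted by `m` at the inverse of `prc t`.
* `PnG j f`: pairs as tuples.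
* `DG p m`: all weights, for `p = 2 j + 1`.
-/

namespace Pool.Agent.Lib.P0c8ca5.Tg

open MonoidAlgebra Bx By

section
variable {A : Type*} [Group A]

/-- the number of the pairs with commutator `x` -/
noncomputable def kc (x : A) : ℤ := (Nat.card {y : A × A // cmt y.1 y.2 = x} : ℤ)

/-- the sum of the commutators -/
noncomputable def kE (k : Type*) [Field k] (A : Type*) [Group A] [Finite A] :
    MonoidAlgebra k A := zel k (kc (A := A))

/-- `j` factors `kc` -/
noncomputable def cvj (f : A → ℤ) : ℕ → A → ℤ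
  | 0 => f
  | j + 1 => cvl (kc (A := A)) (cvj f j)

/-- the product of the commutators -/
def prc {h : ℕ} (t : Fin h ⊕ Fin h → A) : A :=
  (List.ofFn fun i : Fin h => cmt (t (Sum.inl i)) (t (Sum.inr i))).prod

/-- the surface of genus `h` with one puncture -/
def wG (h : ℕ) (m : A → ℤ) (t : Fin h ⊕ Fin h → A) : ℤ := m (prc t)⁻¹

open Classical in
/-- pairs as tuples -/
noncomputable def PnG (j : ℕ) (f : A → ℤ) (t : Fin (j + 1) ⊕ Fin (j + 1) → A) : ℤ :=
  if ∀ i : Fin j, t (Sum.inl i.succ) = 1 ∧ t (Sum.inr i.succ) = 1 then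
    f (cmt (t (Sum.inl 0)) (t (Sum.inr 0)))⁻¹ else 0

/-- all weights -/
noncomputable def DG (p j : ℕ) (m : A → ℤ) (t : Fin (j + 1) ⊕ Fin (j + 1) → A) : ℤ :=
  wG (j + 1) m t - PnG j (pf p m) t

theorem cmt_cj (g a b : A) : cmt (g * a * g⁻¹) (g * b * g⁻¹) = g * cmt a b * g⁻¹ := by
  unfold cmt
  group

theorem prc_cjt {h : ℕ} (g : A) (t : Fin h ⊕ Fin h → A) : prc (cjt g t) = g * prc t * g⁻¹ := by
  have key : ∀ (n : ℕ) (a b : Fin n → A),
      (List.ofFn fun i : Fin n => cmt (g * a i * g⁻¹) (g * b i * g⁻¹)).prod =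
      g * (List.ofFn fun i : Fin n => cmt (a i) (b i)).prod * g⁻¹ := by
    intro n
    induction n with
    | zero => intro a b; simp
    | succ n ih =>
      intro a b
      rw [List.ofFn_succ, List.ofFn_succ, List.prod_cons, List.prod_cons, ih, cmt_cj]
      group
  exact key h _ _

theorem CFt_wG (h : ℕ) {m : A → ℤ} (hm : CF m) : CFt (wG h m) := by
  intro g t
  unfold wG
  rw [prc_cjt]
  have e : (g * prc t * g⁻¹)⁻¹ = g * (prc t)⁻¹ * g⁻¹ := by group
  rw [e, hm]

theorem CFt_PnG (j : ℕ) {f : A → ℤ} (hf : CF f) : CFt (PnG j f) := by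
  classical
  intro g t
  unfold PnG
  have e1 : ∀ i, cjt g t i = g * t i * g⁻¹ := fun _ => rfl
  simp only [e1, conj_eq_one_iff]
  have e2 : (cmt (g * t (Sum.inl 0) * g⁻¹) (g * t (Sum.inr 0) * g⁻¹))⁻¹
      = g * (cmt (t (Sum.inl 0)) (t (Sum.inr 0)))⁻¹ * g⁻¹ := by
    rw [cmt_cj]
    group
  rw [e2, hf]

theorem CF_kc [Finite A] : CF (kc (A := A)) := by
  intro g x
  unfold kc
  congr 1
  refine Nat.card_congr (Equiv.subtypeEquiv
    ((MulAut.conj g⁻¹).toEquiv.prodCongr (MulAut.conj g⁻¹).toEquiv) fun y => ?_)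
  change _ ↔ cmt (g⁻¹ * y.1 * g⁻¹⁻¹) (g⁻¹ * y.2 * g⁻¹⁻¹) = x
  rw [cmt_cj]
  constructor
  · intro h
    rw [h]
    group
  · intro h
    rw [← h]
    group

theorem CFt_DG [Finite A] (p : ℕ) [Fact p.Prime] (j : ℕ) {m : A → ℤ} (hm : CF m) :
    CFt (DG p j m) := by
  intro g t
  unfold DG
  rw [CFt_wG (j + 1) hm g t, CFt_PnG j (CF_pf (p := p) hm) g t]

end

end Pool.Agent.Lib.P0c8ca5.Tg
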