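import Mathlib
import Pool.Agent.Lib.P0c8ca5Bx.ClsB
import Pool.Agent.Lib.P0c8ca5Tg.Defs

/-!
# ClsG: weights and classes

PROOF. `Opr p ⊤ ≤ gt t ↔ ∀ w, Preg p w → w ∈ closure (range t)` (definition of `Opr`). The number `n(c)` of the tuples `t` with `prc t` conjugate to `c` which generate a group containing `O^p(A)`, `q(c)` for the pairs.
(only if) `m = ` indicator function of the class of `c⁻¹` (`IsWt`): `bW p ⊤ (wG h m) - bQ p ⊤ m = n(c) - q(c)`. (if) `bW p ⊤ (wG h m) - bQ p ⊤ m = ∑ m (c⁻¹) * (n(c) - q(c))` over representatives `c` of the classes of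
p-regular elements (`m` is a class function and vanishes elsewhere). Group the tuples by `ConjClasses.mk (prc t)` (`Finset.sum_fiberwise`); see the proofs in Bx.ClsB.
-/

set_option linter.unusedSectionVars false

namespace Pool.Agent.Lib.P0c8ca5.Tg

open MonoidAlgebra Bx By

namespace ClsGAux

variable {p : ℕ} {A : Type*} [Group A] [Finite A]

open Classical in
/-- the indicator function of the class of `c⁻¹` -/
noncomputable def ind (c : A) : A → ℤ := fun x => if IsConj c⁻¹ x then 1 else 0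

theorem ind_pos {c x : A} (h : IsConj c⁻¹ x) : ind c x = 1 := if_pos h

theorem ind_neg {c x : A} (h : ¬ IsConj c⁻¹ x) : ind c x = 0 := if_neg h

open Classical in
theorem card_sum {ι : Type*} [Fintype ι] (P : ι → Prop) (φ : ι → A) (c : A) :
    (Nat.card {y : ι // P y ∧ IsConj c (φ y)} : ℤ)
      = ∑ y, if P y then (if IsConj c (φ y) then 1 else 0) else 0 := by
  rw [Nat.card_eq_fintype_card, Fintype.card_subtype, Finset.card_filter]
  push_cast
  refine Finset.sum_congr rfl fun y _ => ?_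
  by_cases h1 : P y
  · by_cases h2 : IsConj c (φ y)
    · rw [if_pos ⟨h1, h2⟩, if_pos h1, if_pos h2]
    · rw [if_neg (fun h => h2 h.2), if_pos h1, if_neg h2]
  · rw [if_neg (fun h => h1 h.1), if_neg h1]

open Classical in
theorem sum_cls {ι : Type*} [Fintype ι] (P : ι → Prop) (φ : ι → A) {m : A → ℤ}
    (hm : IsWt p ⊤ m) [Fintype A] :
    (∑ y, if P y then m (φ y)⁻¹ else 0)
      = ∑ X : ConjClasses A, m (Quotient.out X)⁻¹ *
          (Nat.card {y : ι // P y ∧ IsConj (Quotient.out X) (φ y)} : ℤ) := by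
  simp only [card_sum, Finset.mul_sum]
  rw [Finset.sum_comm]
  refine Finset.sum_congr rfl (fun y _ => ?_)
  by_cases hg : P y
  · simp only [if_pos hg]
    rw [Finset.sum_eq_single (ConjClasses.mk (φ y))]
    · have h1 : IsConj (Quotient.out (ConjClasses.mk (φ y))) (φ y) :=
        ConjClasses.mk_eq_mk_iff_isConj.1 (Quotient.out_eq _)
      rw [if_pos h1, mul_one]
      obtain ⟨c, hc⟩ := isConj_iff.1 (ClsBAux.conj_inv h1)
      have h2 := hm.conj c (Subgroup.mem_top c)
        (Quotient.out (ConjClasses.mk (φ y)))⁻¹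
      rw [hc] at h2
      exact h2
    · intro X _ hX
      rw [if_neg, mul_zero]
      intro h1
      apply hX
      have h2 := ConjClasses.mk_eq_mk_iff_isConj.2 h1
      rw [← h2]
      exact (Quotient.out_eq X).symm
    · intro h1
      exact absurd (Finset.mem_univ _) h1
  · simp only [if_neg hg, mul_zero, Finset.sum_const_zero]

open Classical in
theorem sum_ind {ι : Type*} [Fintype ι] (P : ι → Prop) (φ : ι → A) (c : A) :
    (∑ y, if P y then ind c (φ y)⁻¹ else 0)
      = (Nat.card {y : ι // P y ∧ IsConj c (φ y)} : ℤ) := by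
  rw [card_sum]
  refine Finset.sum_congr rfl fun y _ => ?_
  by_cases h1 : P y
  · rw [if_pos h1, if_pos h1]
    by_cases h2 : IsConj c (φ y)
    · rw [if_pos h2, ind_pos (ClsBAux.conj_inv h2)]
    · rw [if_neg h2, ind_neg]
      intro h3
      have h4 := ClsBAux.conj_inv h3
      rw [inv_inv, inv_inv] at h4
      exact h2 h4
  · rw [if_neg h1, if_neg h1]

open Classical in
theorem bW_eq (h : ℕ) (m : A → ℤ) [Fintype A] :
    bW p (⊤ : Subgroup A) (wG h m) =
      ∑ t : Fin h ⊕ Fin h → A, if Opr p (⊤ : Subgroup A) ≤ gt t then m (prc t)⁻¹ else 0 := by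
  unfold bW
  rw [finsum_eq_sum_of_fintype]
  refine Finset.sum_congr rfl fun t _ => ?_
  exact if_congr ⟨fun h => h.2, fun h => ⟨le_top, h⟩⟩ rfl rfl

open Classical in
theorem bQ_eq (m : A → ℤ) [Fintype A] :
    bQ p (⊤ : Subgroup A) m =
      ∑ t : A × A, if Opr p (⊤ : Subgroup A) ≤ gn t then m (cmt t.1 t.2)⁻¹ else 0 := by
  unfold bQ
  rw [finsum_eq_sum_of_fintype]
  refine Finset.sum_congr rfl fun t _ => ?_
  exact if_congr ⟨fun h => h.2, fun h => ⟨le_top, h⟩⟩ rfl rfl

theorem card_W (h : ℕ) (c : A) :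
    Nat.card {t : Fin h ⊕ Fin h → A // Opr p (⊤ : Subgroup A) ≤ gt t ∧ IsConj c (prc t)} =
    Nat.card {t : Fin h ⊕ Fin h → A // IsConj c (prc t) ∧
        ∀ w : A, Preg p w → w ∈ Subgroup.closure (Set.range t)} := by
  refine Nat.card_congr (Equiv.subtypeEquivRight fun t => ?_)
  rw [ClsFAux.opr_le_iff]
  exact and_comm

theorem card_Q (c : A) :
    Nat.card {y : A × A // Opr p (⊤ : Subgroup A) ≤ gn y ∧ IsConj c (cmt y.1 y.2)} =
    Nat.card {y : A × A // IsConj c (cmt y.1 y.2) ∧
        ∀ w : A, Preg p w → w ∈ Subgroup.closure ({y.1, y.2} : Set A)} := by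
  refine Nat.card_congr (Equiv.subtypeEquivRight fun t => ?_)
  rw [ClsFAux.opr_le_iff]
  exact and_comm

end ClsGAux

open ClsGAux

theorem wG_cls {p : ℕ} [Fact p.Prime] {A : Type*} [Group A] [Finite A] (h : ℕ) (d : ℕ) :
    (∀ m : A → ℤ, IsWt p ⊤ m →
      (d : ℤ) ∣ bW p (⊤ : Subgroup A) (wG h m) - bQ p (⊤ : Subgroup A) m) ↔
    (∀ c : A, Preg p c →
      Nat.card {t : Fin h ⊕ Fin h → A // IsConj c (prc t) ∧
        ∀ w : A, Preg p w → w ∈ Subgroup.closure (Set.range t)} ≡
      Nat.card {y : A × A // IsConj c (cmt y.1 y.2) ∧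
        ∀ w : A, Preg p w → w ∈ Subgroup.closure ({y.1, y.2} : Set A)} [MOD d]) := by
  classical
  have : Fintype A := Fintype.ofFinite A
  constructor
  · intro H c hc
    have h1 := H (ind c)
      (MainPAux.isWt_class (ClsBAux.preg_inv hc) (fun x hx => ind_pos hx)
        (fun x hx => ind_neg hx))
    rw [bW_eq, bQ_eq, sum_ind, sum_ind, card_W, card_Q] at h1
    exact ((Nat.modEq_iff_dvd).2 h1).symm
  · intro H m hm
    rw [bW_eq, bQ_eq, sum_cls _ _ hm, sum_cls _ _ hm, ← Finset.sum_sub_distrib]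
    refine Finset.dvd_sum fun X _ => ?_
    rw [← mul_sub]
    by_cases hX : Preg p (Quotient.out X)
    · refine Dvd.dvd.mul_left ?_ _
      rw [card_W, card_Q]
      exact (Nat.modEq_iff_dvd).1 (H _ hX).symm
    · have h1 : m (Quotient.out X)⁻¹ = 0 := by
        by_contra h2
        have h3 := ClsBAux.preg_inv (hm.reg _ h2)
        rw [inv_inv] at h3
        exact hX h3
      rw [h1, zero_mul]
      exact dvd_zero _

end Pool.Agent.Lib.P0c8ca5.Tg
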