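import Mathlib
import Pool.Agent.Lib.P0c8ca5Tg.Defs

/-!
# CntG: the surface of genus `j + 1`

PROOF. `cvj_eq`: induction on `j`: `cvj m (j + 1) x = ∑ y, kc y * cvj m j (y⁻¹ * x) = ∑ (a, b), cvj m j ((cmt a b)⁻¹ * x)` (`kc y` counts the pairs: `Finset.sum_fiberwise`), and a tuple `Fin (j + 1) ⊕ Fin (j + 1) → A` is a pair `(a, b)` (the
entries at `inl 0`, `inr 0`) and a tuple `Fin j ⊕ Fin j → A` (`Fin.consEquiv`, `Equiv.sumArrowEquivProdArrow`), `prc t = cmt a b * prc t'` (`List.ofFn_succ`), `(prc t)⁻¹ * x = (prc t')⁻¹ * ((cmt a b)⁻¹ * x)`.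
`nW_wG`: `gt t ≤ ⊤`; `nE ⊤ (cvj m j) = ∑ (a, b), cvj m j (cmt a b)⁻¹`, `cvj_eq`, the same decomposition.
-/

namespace Pool.Agent.Lib.P0c8ca5.Tg

open MonoidAlgebra Bx By

namespace CntGAux

variable {A : Type*} [Group A]

/-- a tuple of pairs without the first pair -/
def eC (A : Type*) (j : ℕ) :
    (Fin (j + 1) ⊕ Fin (j + 1) → A) ≃ (A × A) × (Fin j ⊕ Fin j → A) where
  toFun t := ((t (Sum.inl 0), t (Sum.inr 0)),
    Sum.elim (fun i => t (Sum.inl i.succ)) (fun i => t (Sum.inr i.succ)))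
  invFun p := Sum.elim (Fin.cons p.1.1 fun i => p.2 (Sum.inl i))
    (Fin.cons p.1.2 fun i => p.2 (Sum.inr i))
  left_inv t := by
    funext i
    rcases i with i | i
    · refine Fin.cases ?_ (fun i => ?_) i <;> simp
    · refine Fin.cases ?_ (fun i => ?_) i <;> simp
  right_inv p := by
    obtain ⟨⟨a, b⟩, s⟩ := p
    simp only [Sum.elim_inl, Fin.cons_zero, Sum.elim_inr, Fin.cons_succ, Prod.mk.injEq,
      true_and]
    funext i
    rcases i with i | i <;> rfl

theorem prc_eC (j : ℕ) (t : Fin (j + 1) ⊕ Fin (j + 1) → A) :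
    prc t = cmt (eC A j t).1.1 (eC A j t).1.2 * prc (eC A j t).2 := by
  unfold prc
  rw [List.ofFn_succ, List.prod_cons]
  rfl

theorem sum_kc [Fintype A] (φ : A → ℤ) :
    ∑ y : A, kc y * φ y = ∑ p : A × A, φ (cmt p.1 p.2) := by
  classical
  rw [← Finset.sum_fiberwise (Finset.univ : Finset (A × A)) (fun p => cmt p.1 p.2)
    (fun p => φ (cmt p.1 p.2))]
  refine Finset.sum_congr rfl fun y _ => ?_
  have e1 : ∀ p ∈ Finset.univ.filter (fun p : A × A => cmt p.1 p.2 = y),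
      φ (cmt p.1 p.2) = φ y := by
    intro p hp
    rw [(Finset.mem_filter.1 hp).2]
  rw [Finset.sum_congr rfl e1, Finset.sum_const, nsmul_eq_mul]
  unfold kc
  rw [Nat.card_eq_fintype_card, Fintype.card_subtype]

theorem cvj_sum [Fintype A] (m : A → ℤ) : ∀ (j : ℕ) (x : A),
    cvj m j x = ∑ t : Fin j ⊕ Fin j → A, m ((prc t)⁻¹ * x) := by
  intro j
  induction j with
  | zero =>
    intro x
    rw [Fintype.sum_unique]
    unfold prc
    simp [cvj]
  | succ j ih =>
    intro x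
    have e1 : cvj m (j + 1) x = ∑ y : A, kc y * cvj m j (y⁻¹ * x) := by
      change cvl (kc (A := A)) (cvj m j) x = _
      unfold cvl
      rw [finsum_eq_sum_of_fintype]
    rw [e1, sum_kc (fun y => cvj m j (y⁻¹ * x))]
    conv_rhs => rw [← (eC A j).symm.sum_comp, Fintype.sum_prod_type]
    refine Finset.sum_congr rfl fun p _ => ?_
    rw [ih]
    refine Finset.sum_congr rfl fun t _ => ?_
    rw [prc_eC, Equiv.apply_symm_apply, mul_inv_rev, mul_assoc]

end CntGAux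

theorem cvj_eq {A : Type*} [Group A] [Finite A] (m : A → ℤ) (j : ℕ) (x : A) :
    cvj m j x = ∑ᶠ t : Fin j ⊕ Fin j → A, m ((prc t)⁻¹ * x) := by
  have : Fintype A := Fintype.ofFinite A
  rw [finsum_eq_sum_of_fintype]
  exact CntGAux.cvj_sum m j x

theorem nW_wG {A : Type*} [Group A] [Finite A] (m : A → ℤ) (j : ℕ) :
    nW (⊤ : Subgroup A) (wG (j + 1) m) = nE (⊤ : Subgroup A) (cvj m j) := by
  classical
  have : Fintype A := Fintype.ofFinite A
  unfold nW nE
  rw [finsum_eq_sum_of_fintype, finsum_eq_sum_of_fintype]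
  rw [← (CntGAux.eC A j).symm.sum_comp, Fintype.sum_prod_type]
  refine Finset.sum_congr rfl fun p _ => ?_
  rw [if_pos ⟨Subgroup.mem_top _, Subgroup.mem_top _⟩, CntGAux.cvj_sum]
  refine Finset.sum_congr rfl fun t _ => ?_
  rw [if_pos le_top]
  unfold wG
  rw [CntGAux.prc_eC, Equiv.apply_symm_apply, mul_inv_rev]

end Pool.Agent.Lib.P0c8ca5.Tg
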