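import Mathlib
import Pool.Agent.Lib.P0c8ca5Bx.ABb
import Pool.Agent.Lib.P0c8ca5Tg.Defs

/-!
# PG: pairs as tuples; restriction to subgroups

PROOF. As By.PnM: `nW_PnG`, `bW_PnG`: the tuples with `t (inl i.succ) = t (inr i.succ) = 1` for all `i` correspond to the pairs `(t (inl 0), t (inr 0))`; `gt t = gn (a, b)` (closure of `{a, b}` or of `{a, b, 1}`). Injection
`(a, b) ↦ Sum.elim (Fin.cons a fun _ => 1) (Fin.cons b fun _ => 1)`, `finsum_mem_range` or `Finset.sum_bij_ne_zero`.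
`DG_dn`: unfold everything; `prc` commutes with the coercion (`List.prod` of `List.ofFn`, `map_list_prod` for `U.subtype`), `pf_dn` (Bx.ABb).
-/

namespace Pool.Agent.Lib.P0c8ca5.Tg

open MonoidAlgebra Bx By

variable {A : Type*} [Group A]

namespace PGAux

/-- the tuple of a pair -/
def tp (j : ℕ) (s : A × A) : Fin (j + 1) ⊕ Fin (j + 1) → A :=
  Sum.elim (Fin.cons s.1 fun _ : Fin j => 1) (Fin.cons s.2 fun _ : Fin j => 1)

theorem tp_inj (j : ℕ) :
    Function.Injective (tp j : A × A → Fin (j + 1) ⊕ Fin (j + 1) → A) := by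
  intro s s' h
  have h0 : s.1 = s'.1 := congrFun h (Sum.inl 0)
  have h1 : s.2 = s'.2 := congrFun h (Sum.inr 0)
  exact Prod.ext h0 h1

theorem eq_tp {j : ℕ} {t : Fin (j + 1) ⊕ Fin (j + 1) → A}
    (h : ∀ i : Fin j, t (Sum.inl i.succ) = 1 ∧ t (Sum.inr i.succ) = 1) :
    tp j (t (Sum.inl 0), t (Sum.inr 0)) = t := by
  funext i
  rcases i with i | i
  · refine Fin.cases rfl (fun i => ?_) i
    exact (h i).1.symm
  · refine Fin.cases rfl (fun i => ?_) i
    exact (h i).2.symm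

theorem gt_tp (j : ℕ) (s : A × A) : gt (tp j s) = gn s := by
  apply le_antisymm
  · rw [gt_le]
    intro i
    rcases i with i | i
    · refine Fin.cases ?_ (fun i => ?_) i
      · exact Subgroup.subset_closure (Or.inl rfl)
      · exact Subgroup.one_mem _
    · refine Fin.cases ?_ (fun i => ?_) i
      · exact Subgroup.subset_closure (Or.inr rfl)
      · exact Subgroup.one_mem _
  · unfold gn
    rw [Subgroup.closure_le]
    rintro x (rfl | rfl)
    · exact mem_gt (tp j s) (Sum.inl 0)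
    · exact mem_gt (tp j s) (Sum.inr 0)

theorem sum_tp [Finite A] (j : ℕ) (F : (Fin (j + 1) ⊕ Fin (j + 1) → A) → ℤ)
    (hF : ∀ t, (¬ ∀ i : Fin j, t (Sum.inl i.succ) = 1 ∧ t (Sum.inr i.succ) = 1) → F t = 0) :
    ∑ᶠ t, F t = ∑ᶠ s : A × A, F (tp j s) := by
  classical
  have := Fintype.ofFinite A
  rw [finsum_eq_sum_of_fintype, finsum_eq_sum_of_fintype]
  refine (Fintype.sum_of_injective (tp j) (tp_inj j) _ _ (fun t ht => ?_) (fun _ => rfl)).symm
  exact hF t (fun h => ht ⟨_, eq_tp h⟩)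

theorem gn_le (s : A × A) (U : Subgroup A) : gn s ≤ U ↔ s.1 ∈ U ∧ s.2 ∈ U := by
  unfold gn
  rw [Subgroup.closure_le]
  constructor
  · intro h
    exact ⟨h (Or.inl rfl), h (Or.inr rfl)⟩
  · rintro ⟨h1, h2⟩ x (rfl | rfl)
    · exact h1
    · exact h2

theorem PnG_tp (j : ℕ) (f : A → ℤ) (s : A × A) : PnG j f (tp j s) = f (cmt s.1 s.2)⁻¹ := by
  classical
  unfold PnG
  rw [if_pos (fun i => ⟨rfl, rfl⟩)]
  rfl

theorem PnG_zero {j : ℕ} (f : A → ℤ) {t : Fin (j + 1) ⊕ Fin (j + 1) → A}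
    (h : ¬ ∀ i : Fin j, t (Sum.inl i.succ) = 1 ∧ t (Sum.inr i.succ) = 1) : PnG j f t = 0 := by
  classical
  unfold PnG
  rw [if_neg h]

theorem PnG_coe (U : Subgroup A) (j : ℕ) (f : A → ℤ) (t : Fin (j + 1) ⊕ Fin (j + 1) → ↥U) :
    PnG j (fun x : ↥U => f x) t = PnG j f (fun i => (t i : A)) := by
  classical
  unfold PnG
  have h1 : (((cmt (t (Sum.inl 0)) (t (Sum.inr 0)))⁻¹ : ↥U) : A)
      = (cmt (t (Sum.inl 0) : A) (t (Sum.inr 0) : A))⁻¹ := by
    simp [cmt]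
  have h2 : (∀ i : Fin j, (t (Sum.inl i.succ) : A) = 1 ∧ (t (Sum.inr i.succ) : A) = 1) ↔
      ∀ i : Fin j, t (Sum.inl i.succ) = 1 ∧ t (Sum.inr i.succ) = 1 := by
    refine forall_congr' fun i => ?_
    rw [Subtype.ext_iff, Subtype.ext_iff]
    simp
  by_cases h3 : ∀ i : Fin j, t (Sum.inl i.succ) = 1 ∧ t (Sum.inr i.succ) = 1
  · rw [if_pos h3, if_pos (h2.2 h3), ← h1]
  · rw [if_neg h3, if_neg (fun h4 => h3 (h2.1 h4))]

theorem prc_coe (U : Subgroup A) {h : ℕ} (t : Fin h ⊕ Fin h → ↥U) :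
    ((prc t : ↥U) : A) = prc (fun i => (t i : A)) := by
  unfold prc
  rw [← Subgroup.subtype_apply, map_list_prod, List.map_ofFn]
  refine congrArg List.prod (congrArg List.ofFn ?_)
  funext i
  simp [cmt]

end PGAux

open PGAux

theorem nW_PnG [Finite A] (j : ℕ) (f : A → ℤ) (U : Subgroup A) : nW U (PnG j f) = nE U f := by
  classical
  unfold nW nE
  rw [sum_tp j (fun t => if gt t ≤ U then PnG j f t else 0) (fun t ht => by
    rw [PnG_zero f ht, ite_self])]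
  refine finsum_congr (fun s => ?_)
  rw [PnG_tp, gt_tp]
  exact if_congr (gn_le s U) rfl rfl

theorem bW_PnG [Finite A] (p j : ℕ) (f : A → ℤ) (U : Subgroup A) :
    bW p U (PnG j f) = bQ p U f := by
  classical
  unfold bW bQ
  rw [sum_tp j (fun t => if gt t ≤ U ∧ Opr p U ≤ gt t then PnG j f t else 0) (fun t ht => by
    rw [PnG_zero f ht, ite_self])]
  refine finsum_congr (fun s => ?_)
  rw [PnG_tp, gt_tp]

theorem wG_dn (h : ℕ) (U : Subgroup A) (m : A → ℤ) (t : Fin h ⊕ Fin h → ↥U) :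
    wG h (fun x : ↥U => m x) t = wG h m (fun i => (t i : A)) := by
  unfold wG
  rw [← prc_coe]
  simp

theorem DG_dn [Finite A] (p : ℕ) [Fact p.Prime] (j : ℕ) (U : Subgroup A) (m : A → ℤ)
    (t : Fin (j + 1) ⊕ Fin (j + 1) → ↥U) :
    DG p j (fun x : ↥U => m x) t = DG p j m (fun i => (t i : A)) := by
  unfold DG
  rw [pf_dn, wG_dn, PnG_coe]

end Pool.Agent.Lib.P0c8ca5.Tg
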