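import Mathlib
import Pool.Agent.Lib.P0c8ca5V.THpB
import Pool.Agent.Lib.P0c8ca5Tg.Defs

/-!
# KNil: the sum of the commutators on the blocks of positive defect

PROOF. `kc_cent`: let `d` be an element of order `p` commuting with `x`. The group `zpowers d` (order `p`) acts by conjugation on `{(a, b) | [a, b] = x}` (as `d` commutes with `x`); the fixed points are the pairs commuting with `d`;
on these `zpowers d` acts by `(a, b) ↦ (a d', b)` without fixed points (`[a d', b] = [a, b]` as `d'` commutes with `a` and `b`). So `p` divides the number (`IsPGroup.card_modEq_card_fixedPoints`, or `sum_eq_sum_fixed` of P0c8ca5.Basic).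
`kE_nonDZ`: as `hpe_nonDZ` (P0c8ca5V.THpB), with `z ∈ P` of order `p` (a suitable power of an element `≠ 1`): `K = kE k A` is central (`zel_mem`, `CF_kc`); if `K f` is not nilpotent there is a central `w` with `K w f = f`; `resS C K = 0` for
`C = centralizer (zpowers z)` by `kc_cent` (the coefficients are the images of `kc x`), so `resS C f = resS C K * resS C (w f) = 0` (`resS_mul`), a contradiction.
-/

namespace Pool.Agent.Lib.P0c8ca5.Tg

open MonoidAlgebra Bx By

set_option linter.unusedSectionVars false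

namespace KNilAux

/-- conjugation on the pairs with commutator `x` -/
@[reducible] def act1 {A : Type*} [Group A] {d x : A} (hx : d * x = x * d) :
    MulAction (Subgroup.zpowers d) {y : A × A // cmt y.1 y.2 = x} where
  smul g y := ⟨((g : A) * y.1.1 * (g : A)⁻¹, (g : A) * y.1.2 * (g : A)⁻¹), by
    have h1 : (g : A) * x = x * g := by
      obtain ⟨n, hn⟩ := Subgroup.mem_zpowers_iff.1 g.2
      rw [← hn]
      exact (show Commute d x from hx).zpow_left n
    rw [cmt_cj, y.2, h1]
    group⟩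
  one_smul y := by
    apply Subtype.ext
    change ((1 : A) * y.1.1 * (1 : A)⁻¹, (1 : A) * y.1.2 * (1 : A)⁻¹) = y.1
    ext <;> simp
  mul_smul g h y := by
    apply Subtype.ext
    change (((g : A) * h) * y.1.1 * ((g : A) * h)⁻¹, ((g : A) * h) * y.1.2 * ((g : A) * h)⁻¹) =
      ((g : A) * ((h : A) * y.1.1 * (h : A)⁻¹) * (g : A)⁻¹,
        (g : A) * ((h : A) * y.1.2 * (h : A)⁻¹) * (g : A)⁻¹)
    ext <;> simp only [mul_inv_rev, mul_assoc]

/-- translation on the pairs commuting with `d` -/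
@[reducible] def act2 {A : Type*} [Group A] (d x : A) :
    MulAction (Subgroup.zpowers d)
      {y : A × A // cmt y.1 y.2 = x ∧ d * y.1 = y.1 * d ∧ d * y.2 = y.2 * d} where
  smul g y := ⟨(y.1.1 * (g : A)⁻¹, y.1.2), by
    obtain ⟨h0, h1, h2⟩ := y.2
    obtain ⟨n, hn⟩ := Subgroup.mem_zpowers_iff.1 g.2
    have c1 : Commute (g : A) y.1.1 := by
      rw [← hn]
      exact (show Commute d y.1.1 from h1).zpow_left n
    have c2 : Commute (g : A) y.1.2 := by
      rw [← hn]
      exact (show Commute d y.1.2 from h2).zpow_left n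
    have c3 : Commute d (g : A) := by
      rw [← hn]
      exact (Commute.refl d).zpow_right n
    refine ⟨Eq.trans ?_ h0, ?_, h2⟩
    · unfold cmt
      change y.1.1 * (g : A)⁻¹ * y.1.2 * (y.1.1 * (g : A)⁻¹)⁻¹ * (y.1.2)⁻¹ = _
      have e1 : (y.1.1 * (g : A)⁻¹)⁻¹ = g * (y.1.1)⁻¹ := by group
      rw [e1]
      calc y.1.1 * (g : A)⁻¹ * y.1.2 * (g * (y.1.1)⁻¹) * (y.1.2)⁻¹
          = y.1.1 * ((g : A)⁻¹ * y.1.2 * g) * (y.1.1)⁻¹ * (y.1.2)⁻¹ := by
            simp only [mul_assoc]
        _ = y.1.1 * y.1.2 * (y.1.1)⁻¹ * (y.1.2)⁻¹ := by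
            rw [mul_assoc (g : A)⁻¹, ← c2.eq, inv_mul_cancel_left]
    · change d * (y.1.1 * (g : A)⁻¹) = y.1.1 * (g : A)⁻¹ * d
      rw [← mul_assoc, h1, mul_assoc, c3.inv_right.eq, mul_assoc]⟩
  one_smul y := by
    apply Subtype.ext
    change (y.1.1 * (1 : A)⁻¹, y.1.2) = y.1
    ext <;> simp
  mul_smul g h y := by
    apply Subtype.ext
    change (y.1.1 * ((g : A) * h)⁻¹, y.1.2) = (y.1.1 * (h : A)⁻¹ * (g : A)⁻¹, y.1.2)
    ext <;> simp only [mul_inv_rev, mul_assoc]

end KNilAux

open KNilAux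

theorem kc_cent {p : ℕ} [Fact p.Prime] {A : Type*} [Group A] [Finite A] {d x : A}
    (hd : orderOf d = p) (hx : d * x = x * d) : (p : ℤ) ∣ kc x := by
  classical
  have hP : IsPGroup p (Subgroup.zpowers d) := by
    apply IsPGroup.of_card (n := 1)
    rw [Nat.card_zpowers, hd, pow_one]
  have h1 : Nat.card {y : A × A // cmt y.1 y.2 = x} ≡
      Nat.card {y : A × A // cmt y.1 y.2 = x ∧ d * y.1 = y.1 * d ∧ d * y.2 = y.2 * d} [MOD p] := by
    letI := act1 hx
    have h2 := hP.card_modEq_card_fixedPoints {y : A × A // cmt y.1 y.2 = x}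
    refine h2.trans ?_
    have e : (MulAction.fixedPoints (Subgroup.zpowers d) {y : A × A // cmt y.1 y.2 = x}) ≃
        {y : A × A // cmt y.1 y.2 = x ∧ d * y.1 = y.1 * d ∧ d * y.2 = y.2 * d} :=
      { toFun := fun y => ⟨y.1.1, y.1.2, by
          have h3 := congrArg Subtype.val (y.2 ⟨d, Subgroup.mem_zpowers d⟩)
          have h4 : d * y.1.1.1 * d⁻¹ = y.1.1.1 := congrArg Prod.fst h3
          exact mul_inv_eq_iff_eq_mul.1 h4, by
          have h3 := congrArg Subtype.val (y.2 ⟨d, Subgroup.mem_zpowers d⟩)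
          have h4 : d * y.1.1.2 * d⁻¹ = y.1.1.2 := congrArg Prod.snd h3
          exact mul_inv_eq_iff_eq_mul.1 h4⟩
        invFun := fun y => ⟨⟨y.1, y.2.1⟩, fun g => by
          obtain ⟨n, hn⟩ := Subgroup.mem_zpowers_iff.1 g.2
          apply Subtype.ext
          change ((g : A) * y.1.1 * (g : A)⁻¹, (g : A) * y.1.2 * (g : A)⁻¹) = y.1
          have c1 : Commute (g : A) y.1.1 := by
            rw [← hn]
            exact (show Commute d y.1.1 from y.2.2.1).zpow_left n
          have c2 : Commute (g : A) y.1.2 := by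
            rw [← hn]
            exact (show Commute d y.1.2 from y.2.2.2).zpow_left n
          rw [c1.eq, c2.eq, mul_inv_cancel_right, mul_inv_cancel_right]⟩
        left_inv := fun y => rfl
        right_inv := fun y => rfl }
    rw [Nat.card_congr e]
  have h2 : Nat.card {y : A × A // cmt y.1 y.2 = x ∧ d * y.1 = y.1 * d ∧ d * y.2 = y.2 * d} ≡
      0 [MOD p] := by
    letI := act2 d x
    have h3 := hP.card_modEq_card_fixedPoints
      {y : A × A // cmt y.1 y.2 = x ∧ d * y.1 = y.1 * d ∧ d * y.2 = y.2 * d}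
    refine h3.trans ?_
    have h4 : IsEmpty (MulAction.fixedPoints (Subgroup.zpowers d)
        {y : A × A // cmt y.1 y.2 = x ∧ d * y.1 = y.1 * d ∧ d * y.2 = y.2 * d}) := by
      refine ⟨fun y => ?_⟩
      have h5 := congrArg Subtype.val (y.2 ⟨d, Subgroup.mem_zpowers d⟩)
      have h6 : y.1.1.1 * d⁻¹ = y.1.1.1 := congrArg Prod.fst h5
      have h7 : d⁻¹ = 1 := mul_eq_left.1 h6
      rw [inv_eq_one] at h7
      rw [h7, orderOf_one] at hd
      exact (Fact.out : p.Prime).one_lt.ne hd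
    rw [Nat.card_of_isEmpty]
  unfold kc
  exact_mod_cast (Nat.modEq_zero_iff_dvd.1 (h1.trans h2))

theorem kE_nonDZ {p : ℕ} {k : Type*} [Field k] {A : Type*} [Group A] [Finite A]
    [Fact p.Prime] [CharP k p] [IsAlgClosed k] {f : MonoidAlgebra k A}
    (hf : IsBlock (⊤ : Subgroup A) f) (h : ¬ IsDZ p (⊤ : Subgroup A) f) :
    IsNilpotent (kE k A * f) := by
  classical
  cases nonempty_fintype A
  have hh : kE k A ∈ fixAlg k (⊤ : Subgroup A) ⊤ := zel_mem CF_kc
  rcases blk_nilp_or_unit hf hh with h1 | ⟨w, hw, hwf⟩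
  · exact h1
  exfalso
  have hex : ∃ P : Subgroup A, IsPGroup p P ∧ HasBr P f ∧ P ≠ ⊥ := by
    by_contra hcon
    apply h
    refine ⟨hf, fun P _ hP hbr => ?_⟩
    by_contra hne
    exact hcon ⟨P, hP, hbr, hne⟩
  obtain ⟨P, hP, ⟨x, hx, hfx⟩, hPne⟩ := hex
  obtain ⟨z, hz, hz1⟩ : ∃ z ∈ P, orderOf z = p := by
    have hdvd : p ∣ Nat.card P := by
      obtain ⟨n, hn⟩ := IsPGroup.iff_card.1 hP
      rcases Nat.eq_zero_or_pos n with h0 | h0
      · exfalso
        apply hPne
        rw [h0, pow_zero] at hn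
        exact Subgroup.card_eq_one.1 hn
      · rw [hn]
        exact dvd_pow_self p h0.ne'
    obtain ⟨z, hz⟩ := exists_prime_orderOf_dvd_card' (G := P) p hdvd
    exact ⟨z, z.2, by rw [Subgroup.orderOf_coe, hz]⟩
  have hDP : Subgroup.zpowers z ≤ P := by rwa [Subgroup.zpowers_le]
  have hD : IsPGroup p (Subgroup.zpowers z) := hP.to_le hDP
  have hinv : ∀ a : MonoidAlgebra k A, a ∈ fixAlg k (⊤ : Subgroup A) ⊤ →
      InvBy (Subgroup.zpowers z) a := fun a ha => (mem_fixAlg.1 ha).2.mono le_top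
  have hwf' : w * f ∈ fixAlg k (⊤ : Subgroup A) ⊤ := (fixAlg k _ _).mul_mem hw hf.mem
  have hK0 : resS (Subgroup.centralizer ((Subgroup.zpowers z : Subgroup A) : Set A) : Set A)
      (kE k A) = 0 := by
    ext y
    by_cases hy : y ∈ Subgroup.centralizer ((Subgroup.zpowers z : Subgroup A) : Set A)
    · rw [coeff_resS_of_mem _ (SetLike.mem_coe.2 hy)]
      have h1 : z * y = y * z := Subgroup.mem_centralizer_iff.1 hy z (Subgroup.mem_zpowers z)
      have h2 := kc_cent hz1 h1
      have h3 : (kE k A).coeff y = ((kc y : ℤ) : k) := zel_coeff _ _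
      rw [h3, (CharP.intCast_eq_zero_iff k p _).2 h2]
      rfl
    · rw [coeff_resS_of_notMem _ (fun h' => hy (SetLike.mem_coe.1 h'))]
      rfl
  have hfe : kE k A * (w * f) = f := by
    rw [← mul_assoc]
    exact hwf
  have h0 : resS (Subgroup.centralizer ((Subgroup.zpowers z : Subgroup A) : Set A) : Set A) f
      = 0 := by
    rw [← hfe, resS_mul hD (hinv _ hh) (hinv _ hwf'), hK0, zero_mul]
  apply hfx
  have hxC : x ∈ Subgroup.centralizer ((Subgroup.zpowers z : Subgroup A) : Set A) :=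
    Subgroup.centralizer_le (SetLike.coe_subset_coe.2 hDP) hx
  rw [← coeff_resS_of_mem (S := (Subgroup.centralizer
    ((Subgroup.zpowers z : Subgroup A) : Set A) : Set A)) f hxC, h0]
  rfl

end Pool.Agent.Lib.P0c8ca5.Tg
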