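import Mathlib

/-!
# Idem: an idempotent of rank one

PROOF. `R` is a finite-dimensional algebra, so a left artinian ring; let `L` be a minimal nonzero left ideal contained in `R f` (`IsAtomic` for `Submodule R R`). For `x ∈ L`: `x f = x`.
(1) `L L ≠ 0`: let `0 ≠ x ∈ L`, `∑ u_i x v_i = f` (`hS`). If all products of elements of `L` are `0`, then `x'' = f x'' = ∑ u_i (x (v_i x'')) = 0` for `x'' ∈ L` (`v_i x'' ∈ L`): contradiction.
(2) So there is `a ∈ L` with `L a ≠ 0`; `L a ≤ L` is a left ideal, so `L a = L`, there is `i ∈ L` with `i a = a`, `i ≠ 0`; `{x ∈ L | x a = 0}` is a left ideal contained in `L`, not `L`, so `0`: `(i i - i) a = 0` gives `i i = i`.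
(3) For `0 ≠ y` with `i y i = y`: `R y ≤ R i = L`, so `R y = L`, `z y = i` for some `z`, `(i z i) y = i`. So every such `y` has a left inverse of the same kind, hence (the left inverse has a left inverse) a two-sided inverse:
`(i z i) y = y (i z i) = i`.
(4) Let `y = i x i`. Right multiplication by `y` maps `L` to `L` (`L` is a left ideal, `y ∈ L`), it is `k`-linear, `L ≠ 0` is finite-dimensional over `k`: there are `c : k` and `0 ≠ l ∈ L` with `l y = c l`
(`Module.End.exists_eigenvalue`). `l i = l` (`l ∈ R i`). If `y - c i ≠ 0` it has an inverse `w` as in (3), and `l = l i = l (y - c i) w = 0`. So `y = c i`.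
-/

namespace Pool.Agent.Lib.P0c8ca5.Tg

theorem exists_rank_one {k R : Type*} [Field k] [IsAlgClosed k] [Ring R] [Algebra k R]
    [FiniteDimensional k R] {f : R} (hf0 : f ≠ 0) (hff : f * f = f) (hc : ∀ x : R, x * f = f * x)
    (hS : ∀ x : R, x * f = x → x ≠ 0 →
      ∃ (n : ℕ) (u v : Fin n → R), ∑ i, u i * x * v i = f) :
    ∃ i : R, i ≠ 0 ∧ i * i = i ∧ i * f = i ∧ ∀ x : R, ∃ c : k, i * x * i = c • i := by
  classical
  have hart : IsArtinianRing R := IsArtinianRing.of_finite k R
  have hat : IsAtomic (Ideal R) := isAtomic_of_orderBot_wellFounded_lt wellFounded_lt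
  have hne : Ideal.span {f} ≠ ⊥ := by
    rw [Ne, Ideal.span_singleton_eq_bot]
    exact hf0
  obtain ⟨L, hL, hLf⟩ := (IsAtomic.eq_bot_or_exists_atom_le (Ideal.span {f})).resolve_left hne
  have hxf : ∀ x ∈ L, x * f = x := by
    intro x hx
    obtain ⟨a, rfl⟩ := Ideal.mem_span_singleton'.1 (hLf hx)
    rw [mul_assoc, hff]
  have hmin : ∀ M : Ideal R, M ≤ L → M ≠ ⊥ → M = L :=
    fun M h1 h2 => (hL.le_iff.1 h1).resolve_left h2
  obtain ⟨x0, hx0L, hx0⟩ := Submodule.exists_mem_ne_zero_of_ne_bot hL.1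
  -- (1)
  obtain ⟨a, ha, l, hl, hla⟩ : ∃ a ∈ L, ∃ l ∈ L, l * a ≠ 0 := by
    by_contra hcon
    push Not at hcon
    obtain ⟨n, u, v, huv⟩ := hS x0 (hxf x0 hx0L) hx0
    apply hx0
    calc x0 = f * x0 := by rw [← hc, hxf x0 hx0L]
      _ = (∑ i, u i * x0 * v i) * x0 := by rw [huv]
      _ = ∑ i, u i * (x0 * (v i * x0)) := by
          rw [Finset.sum_mul]
          exact Finset.sum_congr rfl fun i _ => by simp only [mul_assoc]
      _ = 0 := Finset.sum_eq_zero fun i _ => by
          rw [hcon (v i * x0) (L.mul_mem_left _ hx0L) x0 hx0L, mul_zero]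
  -- (2)
  have ha0 : a ≠ 0 := by
    rintro rfl
    exact hla (mul_zero l)
  have hmap : Submodule.map (LinearMap.toSpanSingleton R R a) L = L := by
    refine hmin _ ?_ ?_
    · rintro _ ⟨x, hx, rfl⟩
      rw [LinearMap.toSpanSingleton_apply, smul_eq_mul]
      exact L.mul_mem_left x ha
    · intro h
      apply hla
      have h1 : l * a ∈ Submodule.map (LinearMap.toSpanSingleton R R a) L :=
        ⟨l, hl, by rw [LinearMap.toSpanSingleton_apply, smul_eq_mul]⟩
      rw [h] at h1
      exact (Submodule.mem_bot R).1 h1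
  obtain ⟨i, hiL, hia⟩ : ∃ i ∈ L, i * a = a := by
    have h1 : a ∈ Submodule.map (LinearMap.toSpanSingleton R R a) L := by
      rw [hmap]
      exact ha
    obtain ⟨i, hi, h2⟩ := h1
    rw [LinearMap.toSpanSingleton_apply, smul_eq_mul] at h2
    exact ⟨i, hi, h2⟩
  have hi0 : i ≠ 0 := by
    rintro rfl
    apply ha0
    rw [← hia, zero_mul]
  have hker : L ⊓ LinearMap.ker (LinearMap.toSpanSingleton R R a) = ⊥ := by
    refine hL.2 _ (lt_of_le_of_ne inf_le_left ?_)
    intro h
    have h1 : i ∈ L ⊓ LinearMap.ker (LinearMap.toSpanSingleton R R a) := by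
      rw [h]
      exact hiL
    have h2 : LinearMap.toSpanSingleton R R a i = 0 := LinearMap.mem_ker.1 h1.2
    rw [LinearMap.toSpanSingleton_apply, smul_eq_mul, hia] at h2
    exact ha0 h2
  have hii : i * i = i := by
    have h1 : i * i - i ∈ L ⊓ LinearMap.ker (LinearMap.toSpanSingleton R R a) := by
      refine ⟨L.sub_mem (L.mul_mem_left _ hiL) hiL, LinearMap.mem_ker.2 ?_⟩
      rw [LinearMap.toSpanSingleton_apply, smul_eq_mul, sub_mul, mul_assoc, hia, hia, sub_self]
    rw [hker] at h1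
    exact sub_eq_zero.1 ((Submodule.mem_bot R).1 h1)
  -- (3)
  have hspan : ∀ y ∈ L, y ≠ 0 → ∀ x ∈ L, ∃ z, z * y = x := by
    intro y hy hy0 x hx
    have h1 : Ideal.span {y} = L := by
      refine hmin _ ?_ ?_
      · rw [Ideal.span_le]
        rintro _ rfl
        exact hy
      · rw [Ne, Ideal.span_singleton_eq_bot]
        exact hy0
    rw [← h1] at hx
    exact Ideal.mem_span_singleton'.1 hx
  have hmem : ∀ y, i * y * i = y → y ∈ L := by
    intro y hy
    rw [← hy]
    exact L.mul_mem_left _ hiL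
  have hiy : ∀ y, i * y * i = y → i * y = y ∧ y * i = y := by
    intro y hy
    constructor
    · conv_lhs => rw [← hy]
      rw [← mul_assoc, ← mul_assoc, hii, hy]
    · conv_lhs => rw [← hy]
      rw [mul_assoc, hii, hy]
  have hleft : ∀ y, i * y * i = y → y ≠ 0 → ∃ z, i * z * i = z ∧ z * y = i := by
    intro y hy hy0
    obtain ⟨z, hz⟩ := hspan y (hmem y hy) hy0 i hiL
    refine ⟨i * z * i, ?_, ?_⟩
    · simp only [← mul_assoc]
      rw [hii, mul_assoc (i * z), hii]
    · rw [mul_assoc, (hiy y hy).1, mul_assoc, hz, hii]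
  have hinv : ∀ y, i * y * i = y → y ≠ 0 → ∃ z, y * z = i := by
    intro y hy hy0
    obtain ⟨z, hz, hzy⟩ := hleft y hy hy0
    have hz0 : z ≠ 0 := by
      rintro rfl
      rw [zero_mul] at hzy
      exact hi0 hzy.symm
    obtain ⟨w, hw, hwz⟩ := hleft z hz hz0
    refine ⟨z, ?_⟩
    have h1 : w = y := by
      calc w = w * i := ((hiy w hw).2).symm
        _ = w * z * y := by rw [← hzy, mul_assoc]
        _ = y := by rw [hwz, (hiy y hy).1]
    rw [← h1]
    exact hwz
  refine ⟨i, hi0, hii, hxf i hiL, fun x => ?_⟩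
  -- (4)
  set y := i * x * i with hy
  have hyy : i * y * i = y := by
    rw [hy]
    simp only [← mul_assoc]
    rw [hii, mul_assoc (i * x), hii]
  have hyL : y ∈ L := hmem y hyy
  let M : Submodule k R := L.restrictScalars k
  have hM : ∀ z ∈ M, LinearMap.mulRight k y z ∈ M := by
    intro z _
    rw [LinearMap.mulRight_apply]
    exact L.mul_mem_left z hyL
  let T : Module.End k M := (LinearMap.mulRight k y).restrict hM
  have hnt : Nontrivial M := ⟨⟨⟨i, hiL⟩, 0, fun h => hi0 (congrArg Subtype.val h)⟩⟩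
  obtain ⟨c, hcT⟩ := Module.End.exists_eigenvalue T
  obtain ⟨v, hv⟩ := hcT.exists_hasEigenvector
  have hv1 : (v : R) * y = c • (v : R) := by
    have h1 := congrArg Subtype.val hv.apply_eq_smul
    exact h1
  have hv0 : (v : R) ≠ 0 := fun h => hv.2 (Subtype.ext h)
  refine ⟨c, ?_⟩
  by_contra hcon
  have h1 : y - c • i ≠ 0 := fun h => hcon (sub_eq_zero.1 h)
  have h2 : i * (y - c • i) * i = y - c • i := by
    rw [mul_sub, sub_mul, hyy, mul_smul_comm, smul_mul_assoc, hii, hii]
  obtain ⟨w, hw⟩ := hinv _ h2 h1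
  obtain ⟨z, hz⟩ := hspan i hiL hi0 (v : R) v.2
  apply hv0
  have hvi : (v : R) * i = v := by
    rw [← hz, mul_assoc, hii]
  calc (v : R) = v * i := hvi.symm
    _ = v * (y - c • i) * w := by rw [mul_assoc, hw]
    _ = 0 := by rw [mul_sub, hv1, mul_smul_comm, hvi, sub_self, zero_mul]

end Pool.Agent.Lib.P0c8ca5.Tg
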