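import Mathlib
import Pool.Agent.Lib.P0c8ca5V.TDzA
import Pool.Agent.Lib.P0c8ca5Tg.Defs

/-!
# ScA: the trace map on a block of defect zero

`tra x = ∑ g, g x g⁻¹`.

PROOF. `tra_mem`: `tra x` is invariant under conjugation (reindex). `kE_eq`: compare coefficients, or: both are `∑ (a, b), single (cmt a b) 1` (`kc` counts the pairs, `zel_coeff`, `Finset.sum_boole`; `tra (single y 1) * single y⁻¹ 1 = ∑ g, single (g y g⁻¹ y⁻¹) 1`).
`tra_dz`: for central `f`: with `K f = c f` and `tra x * f = t x • f` (`dz_scalar`, `tra_mem`): `c • f = K f = ∑ y, tra y * f * y⁻¹ = (∑ y, t y • y⁻¹) f =: s f`. `t` is linear, `t (x f) = t x` (`tra (x f) = tra x * f`, `f` central), and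
`(x * s).coeff 1 = t x` (for `x = single y 1` this is clear). So `t x = t (x f) = (x f s).coeff 1 = c (x f).coeff 1`.
`tra_ne`: otherwise `tra (single x 1) * f = 0` for all `x`. Write `f = ∑ over the conjugacy classes C of f(x_C) * (∑ x ∈ C, x)`; if `f(x_C) ≠ 0` then `p` does not divide the order of the centralizer of `x_C` (`IsDZ.ndvd`, see `hpe_mul_dz` in P0c8ca5V.THpA),
and `tra (single x_C 1) = |centralizer| • ∑ x ∈ C, x`; so `(∑ x ∈ C, x) f = 0`, and `f = f f = 0`, a contradiction to `hf.blk.ne_zero`. (Use `Finset.sum_fiberwise` for `ConjClasses.mk`; the number of the `g` with `g x_C g⁻¹ = x`, `x ∈ C`, is `|centralizer|`.)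
-/

namespace Pool.Agent.Lib.P0c8ca5.Tg

open MonoidAlgebra Bx By

set_option linter.unusedSectionVars false

variable {p : ℕ} {k : Type*} [Field k] {A : Type*} [Group A] [Fintype A]

/-- the trace map -/
noncomputable def tra (x : MonoidAlgebra k A) : MonoidAlgebra k A :=
  ∑ g : A, single g (1 : k) * x * single g⁻¹ (1 : k)

namespace ScAAux

theorem tra_eq (x : MonoidAlgebra k A) : tra x = trK (⊤ : Subgroup A) x := by
  classical
  unfold tra trK
  rw [Finset.filter_true_of_mem (fun g _ => Subgroup.mem_top g)]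
  rfl

theorem tra_coeff (x : MonoidAlgebra k A) (y : A) :
    (tra x).coeff y = ∑ g : A, x.coeff (g⁻¹ * y * g) := by
  classical
  rw [tra_eq, coeff_trK]
  exact Finset.sum_congr rfl fun g _ => if_pos (Subgroup.mem_top g)

theorem tra_mul (x : MonoidAlgebra k A) {f : MonoidAlgebra k A}
    (hf : InvBy (⊤ : Subgroup A) f) : tra (x * f) = tra x * f := by
  rw [tra_eq, tra_eq, trK_mul x hf]

open Classical in
theorem single_coeff (y z : A) :
    (single y (1 : k)).coeff z = if y = z then (1 : k) else 0 := by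
  rw [coeff_single, Finsupp.single_apply]

theorem tra_lin (x : MonoidAlgebra k A) :
    tra x = ∑ y : A, x.coeff y • tra (single y (1 : k)) := by
  classical
  ext z
  rw [coeff_sum, Finsupp.finsetSum_apply, tra_coeff]
  have h : ∀ y : A, (x.coeff y • tra (single y (1 : k))).coeff z =
      ∑ g : A, x.coeff y * (if y = g⁻¹ * z * g then (1 : k) else 0) := by
    intro y
    rw [coeff_smul, Finsupp.smul_apply, tra_coeff, smul_eq_mul, Finset.mul_sum]
    refine Finset.sum_congr rfl fun g _ => ?_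
    rw [single_coeff]
  rw [Finset.sum_congr rfl fun y _ => h y, Finset.sum_comm]
  refine Finset.sum_congr rfl fun g _ => ?_
  simp

end ScAAux

open ScAAux

theorem tra_mem (x : MonoidAlgebra k A) : tra x ∈ fixAlg k (⊤ : Subgroup A) ⊤ := by
  rw [mem_fixAlg, tra_eq]
  exact ⟨fun y _ => Subgroup.mem_top y, trK_invBy _ _⟩

theorem kE_mem : kE k A ∈ fixAlg k (⊤ : Subgroup A) ⊤ := zel_mem CF_kc

theorem kE_eq : kE k A = ∑ y : A, tra (single y (1 : k)) * single y⁻¹ (1 : k) := by
  classical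
  ext x
  rw [coeff_sum, Finsupp.finsetSum_apply]
  have h1 : ∀ y : A, (tra (single y (1 : k)) * single y⁻¹ (1 : k)).coeff x =
      ∑ g : A, if cmt g y = x then (1 : k) else 0 := by
    intro y
    rw [coeff_mul_single_apply, tra_coeff, mul_one]
    refine Finset.sum_congr rfl fun g _ => ?_
    rw [single_coeff, inv_inv]
    refine if_congr ?_ rfl rfl
    unfold cmt
    constructor
    · intro h
      have h2 : x = g * (g⁻¹ * (x * y) * g) * g⁻¹ * y⁻¹ := by group
      rw [h2, ← h]
    · intro h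
      rw [← h]
      group
  rw [Finset.sum_congr rfl fun y _ => h1 y]
  have h3 : (kE k A).coeff x = ∑ y : A × A, if cmt y.1 y.2 = x then (1 : k) else 0 := by
    unfold kE
    rw [zel_coeff]
    unfold kc
    rw [Int.cast_natCast, Nat.card_eq_fintype_card, Fintype.card_subtype, Finset.card_filter]
    push_cast
    rfl
  rw [h3, Fintype.sum_prod_type, Finset.sum_comm]

variable [Fact p.Prime] [CharP k p] [IsAlgClosed k]

theorem tra_dz {f : MonoidAlgebra k A} (hf : IsDZ p (⊤ : Subgroup A) f) {c : k}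
    (hc : kE k A * f = c • f) (x : MonoidAlgebra k A) :
    tra x * f = (c * (x * f).coeff 1) • f := by
  classical
  have hfI : InvBy (⊤ : Subgroup A) f := (mem_fixAlg.1 hf.blk.mem).2
  have hff : f * f = f := hf.blk.idem
  have h1 : ∀ x : MonoidAlgebra k A, ∃ t : k, tra x * f = t • f :=
    fun x => dz_scalar hf (tra_mem x)
  choose t ht using h1
  have hinj : ∀ a b : k, a • f = b • f → a = b := fun a b h => by
    have h2 : (a - b) • f = 0 := by rw [sub_smul, h, sub_self]
    rcases smul_eq_zero.mp h2 with h3 | h3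
    · exact sub_eq_zero.mp h3
    · exact absurd h3 hf.blk.ne_zero
  have hlin : ∀ x : MonoidAlgebra k A, t x = ∑ y : A, x.coeff y * t (single y (1 : k)) := by
    intro x
    apply hinj
    rw [← ht x, tra_lin x, Finset.sum_mul, Finset.sum_smul]
    refine Finset.sum_congr rfl fun y _ => ?_
    rw [smul_mul_assoc, ht, smul_smul]
  -- the element `s`
  obtain ⟨s, hs⟩ : ∃ s : MonoidAlgebra k A, s = ∑ y : A, t (single y (1 : k)) •
      single y⁻¹ (1 : k) := ⟨_, rfl⟩
  have hsc : ∀ z : A, s.coeff z = t (single z⁻¹ (1 : k)) := by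
    intro z
    rw [hs, coeff_sum, Finsupp.finsetSum_apply]
    have h2 : ∀ y : A, (t (single y (1 : k)) • single y⁻¹ (1 : k)).coeff z =
        if y = z⁻¹ then t (single y (1 : k)) else 0 := by
      intro y
      rw [coeff_smul, Finsupp.smul_apply, single_coeff, smul_eq_mul, mul_ite, mul_one, mul_zero]
      exact if_congr inv_eq_iff_eq_inv rfl rfl
    rw [Finset.sum_congr rfl fun y _ => h2 y]
    simp
  have hxs : ∀ x : MonoidAlgebra k A, (x * s).coeff 1 = t x := by
    intro x
    rw [coeff_mul_fin, hlin x]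
    refine Finset.sum_congr rfl fun y _ => ?_
    rw [hsc, mul_one, inv_inv]
  have hfs : f * s = c • f := by
    rw [← hc, kE_eq, hs, Finset.sum_mul, Finset.mul_sum]
    refine Finset.sum_congr rfl fun y _ => ?_
    have h2 : single y⁻¹ (1 : k) * f = f * single y⁻¹ (1 : k) :=
      invBy_iff_commute.1 hfI y⁻¹ (Subgroup.mem_top _)
    rw [mul_assoc, h2, ← mul_assoc, ht, smul_mul_assoc, mul_smul_comm]
  have h3 : t x = t (x * f) := by
    apply hinj
    rw [← ht x, ← ht (x * f), tra_mul x hfI, mul_assoc, hff]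
  rw [ht x, h3, ← hxs, mul_assoc, hfs, mul_smul_comm, coeff_smul, Finsupp.smul_apply, smul_eq_mul]

namespace ScAAux

/-- the number of the elements conjugating `z` to `r` -/
theorem sum_conj_to {z r : A} (hzr : IsConj z r) (a : k) [DecidableEq A] :
    ∑ g : A, (if g⁻¹ * z * g = r then a else 0) =
      (Nat.card ↥(Subgroup.centralizer {r}) : k) * a := by
  classical
  obtain ⟨h, hh⟩ := isConj_iff.mp hzr
  have h1 : ∑ g : A, (if g⁻¹ * z * g = r then a else 0) =
      ∑ x : A, (if x ∈ Subgroup.centralizer ({r} : Set A) then a else 0) := by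
    refine (Fintype.sum_equiv (Equiv.mulLeft h⁻¹) _ _ fun x => ?_).symm
    have e : (Equiv.mulLeft h⁻¹) x = h⁻¹ * x := rfl
    rw [e]
    refine if_congr ?_ rfl rfl
    rw [Subgroup.mem_centralizer_singleton_iff]
    have e2 : (h⁻¹ * x)⁻¹ * z * (h⁻¹ * x) = x⁻¹ * (h * z * h⁻¹) * x := by group
    rw [e2, hh]
    constructor
    · intro h3
      rw [mul_assoc, ← h3]
      group
    · intro h3
      have h4 : r * x = x * (x⁻¹ * r * x) := by group
      rw [h4, h3]
  rw [h1, ← Finset.sum_filter, Finset.sum_const, nsmul_eq_mul, Nat.card_eq_fintype_card]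
  congr 2
  rw [Fintype.card_subtype]

end ScAAux

theorem tra_ne {f : MonoidAlgebra k A} (hf : IsDZ p (⊤ : Subgroup A) f) :
    ∃ x : MonoidAlgebra k A, tra x * f ≠ 0 := by
  classical
  have hfI : InvBy (⊤ : Subgroup A) f := (mem_fixAlg.1 hf.blk.mem).2
  obtain ⟨ρ, hρ⟩ : ∃ ρ : A → A, ρ = fun y => (ConjClasses.mk y).out := ⟨_, rfl⟩
  have hρ1 : ∀ y, IsConj y (ρ y) := by
    intro y
    rw [hρ]
    exact (ConjClasses.mk_eq_mk_iff_isConj.mp (Quotient.out_eq (ConjClasses.mk y))).symm
  have hρ2 : ∀ y z, IsConj y z → ρ y = ρ z := by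
    intro y z h
    rw [hρ]
    change (ConjClasses.mk y).out = (ConjClasses.mk z).out
    rw [ConjClasses.mk_eq_mk_iff_isConj.mpr h]
  have hfc : ∀ y z, IsConj y z → f.coeff z = f.coeff y := by
    intro y z h
    obtain ⟨g, hg⟩ := isConj_iff.mp h
    rw [← hg, hfI g (Subgroup.mem_top g)]
  obtain ⟨u, hu⟩ : ∃ u : MonoidAlgebra k A, ∀ y, u.coeff y = if ρ y = y then
      f.coeff y * (Nat.card ↥(Subgroup.centralizer ({y} : Set A)) : k)⁻¹ else 0 :=
    ⟨MonoidAlgebra.ofCoeff (Finsupp.equivFunOnFinite.symm fun y => if ρ y = y then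
      f.coeff y * (Nat.card ↥(Subgroup.centralizer ({y} : Set A)) : k)⁻¹ else 0), fun _ => rfl⟩
  have h1 : tra u = f := by
    ext z
    rw [tra_coeff]
    have h2 : ∀ g : A, u.coeff (g⁻¹ * z * g) = if g⁻¹ * z * g = ρ z then
        f.coeff z * (Nat.card ↥(Subgroup.centralizer ({ρ z} : Set A)) : k)⁻¹ else 0 := by
      intro g
      have hc : IsConj z (g⁻¹ * z * g) := isConj_iff.mpr ⟨g⁻¹, by rw [inv_inv]⟩
      rw [hu, ← hρ2 _ _ hc]
      by_cases h3 : ρ z = g⁻¹ * z * g
      · rw [if_pos h3, if_pos h3.symm, hfc _ _ hc, ← h3]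
      · rw [if_neg h3, if_neg (fun h => h3 h.symm)]
    rw [Finset.sum_congr rfl fun g _ => h2 g, sum_conj_to (hρ1 z)]
    by_cases h4 : f.coeff z = 0
    · rw [h4, zero_mul, mul_zero]
    · have h5 : f.coeff (ρ z) ≠ 0 := by
        rw [hfc _ _ (hρ1 z)]
        exact h4
      have h6 := hf.ndvd h5
      rw [top_inf_eq, ← CharP.cast_eq_zero_iff k p] at h6
      field_simp
  refine ⟨u, ?_⟩
  rw [h1, hf.blk.idem]
  exact hf.blk.ne_zero

end Pool.Agent.Lib.P0c8ca5.Tg
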