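import Mathlib
import Pool.Agent.Lib.P0c8ca5By.Om
import Pool.Agent.Lib.P0c8ca5Tg.Idem
import Pool.Agent.Lib.P0c8ca5Tg.ScA

/-!
# ScB: the sum of the commutators on a block of defect zero

PROOF. Let `K f = c f` (`dz_scalar`, `kE_mem`), `λ x = x.coeff 1`; `λ (x y) = λ (y x)`. By `tra_ne`, `tra_dz`: `c ≠ 0`.
(1) `hS` of `exists_rank_one` holds for `f`: for `x = x f ≠ 0` let `x.coeff z ≠ 0`, `y = single z⁻¹ (c * x.coeff z)⁻¹`: `c * λ (y x f) = 1`, so `tra (y x) * f = f`, and this is the finite sum `∑ g, (g y) x (g⁻¹ f)`.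
(2) Let `i` be the idempotent of rank one, `i x i = φ x • i`, `φ` linear (`i ≠ 0`), `ν = λ i`. `λ (i g i) = λ (g i i) = λ (g i) = i.coeff g⁻¹`, and `= φ g * ν`: so `i.coeff g⁻¹ = ν φ(g)`. `φ i = 1` (`i i i = i`), and `φ i = ∑ g, i.coeff g * φ g = ν ∑ g, φ g⁻¹ * φ g`.
(3) `i * tra i * i = ∑ g, (i g i) (g⁻¹ i) = ∑ g, φ g * φ g⁻¹ • i`, and `= (c * λ (i f)) • i = (c ν) • i` by `tra_dz` (`tra i * i = tra i * f * i`). So `c ν = ∑ g, φ g φ g⁻¹`, and `c ν ν = 1`.
(4) `ν ^ p = ν`: `λ (i ^ p) = ∑ u, [u ^ p = 1] i.coeff u ^ p` (`ChC.Fl_pow` with `φ` = indicator of `1`, `s = 1`; see `THpAAux.key`), `= (∑ u, [u ^ p = 1] i.coeff u) ^ p` (Frobenius, `sum_pow_char`) `= (λ (om p k A * i)) ^ p`, and `om * i = om * f * i = f * i = i` (`om_dz`).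
`i ^ p = i`.
(5) `ν ≠ 0`, so `ν ^ (2 j) = 1` for `p = 2 j + 1`, and `c ^ j = c ^ j * (ν ^ 2) ^ j = 1`.
-/

namespace Pool.Agent.Lib.P0c8ca5.Tg

open MonoidAlgebra Bx By

set_option linter.unusedSectionVars false

variable {p : ℕ} {k : Type*} [Field k] {A : Type*} [Group A] [Fintype A]
variable [Fact p.Prime] [CharP k p] [IsAlgClosed k]

namespace ScBAux

omit [Fact p.Prime] [CharP k p] [IsAlgClosed k] in
theorem lam_comm (x y : MonoidAlgebra k A) : (x * y).coeff 1 = (y * x).coeff 1 := by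
  rw [coeff_mul_fin, coeff_mul_fin]
  refine Fintype.sum_equiv (Equiv.inv A) _ _ fun u => ?_
  rw [Equiv.inv_apply, mul_one, mul_one, inv_inv, mul_comm]

omit [Fact p.Prime] [CharP k p] [IsAlgClosed k] in
theorem lam_single (z : A) (r : k) (x : MonoidAlgebra k A) :
    (single z r * x).coeff 1 = r * x.coeff z⁻¹ := by
  classical
  rw [coeff_mul_fin, Finset.sum_eq_single z]
  · rw [coeff_single, Finsupp.single_eq_same, mul_one]
  · intro b _ hb
    rw [coeff_single, Finsupp.single_eq_of_ne hb, zero_mul]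
  · intro h
    exact absurd (Finset.mem_univ z) h

omit [Fact p.Prime] [CharP k p] [IsAlgClosed k] in
theorem eq_sum (x : MonoidAlgebra k A) : x = ∑ g : A, x.coeff g • single g (1 : k) := by
  classical
  have h : ∀ y : A, (∑ g : A, x.coeff g • single g (1 : k)).coeff y = x.coeff y := by
    intro y
    have h2 : (∑ g : A, x.coeff g • single g (1 : k)).coeff y =
        ∑ g : A, (x.coeff g • single g (1 : k)).coeff y := by
      rw [coeff_sum, Finsupp.finsetSum_apply]
    rw [h2, Finset.sum_eq_single y]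
    · rw [coeff_smul, Finsupp.smul_apply, coeff_single, Finsupp.single_eq_same, smul_eq_mul,
        mul_one]
    · intro b _ hb
      rw [coeff_smul, Finsupp.smul_apply, coeff_single, Finsupp.single_eq_of_ne hb.symm,
        smul_zero]
    · intro h
      exact absurd (Finset.mem_univ y) h
  ext y
  rw [h y]

end ScBAux

theorem kE_dz {f : MonoidAlgebra k A} (hf : IsDZ p (⊤ : Subgroup A) f) :
    ∃ c ν : k, kE k A * f = c • f ∧ c * ν ^ 2 = 1 ∧ ν ^ p = ν := by
  classical
  obtain ⟨c, hc⟩ := dz_scalar hf (kE_mem (k := k) (A := A))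
  have htr := tra_dz hf hc
  have hff : f * f = f := hf.blk.idem
  have hfc : ∀ x : MonoidAlgebra k A, x * f = f * x := fun x =>
    commute_of (K := ⊤) (fun y _ => Subgroup.mem_top y) (mem_fixAlg.1 hf.blk.mem).2
  have hc0 : c ≠ 0 := by
    rintro rfl
    obtain ⟨x, hx⟩ := tra_ne hf
    apply hx
    rw [htr x, zero_mul, zero_smul]
  have hS : ∀ x : MonoidAlgebra k A, x * f = x → x ≠ 0 →
      ∃ (n : ℕ) (u v : Fin n → MonoidAlgebra k A), ∑ i, u i * x * v i = f := by
    intro x hxf hx0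
    obtain ⟨z, hz⟩ : ∃ z, x.coeff z ≠ 0 := by
      by_contra hcon
      push Not at hcon
      apply hx0
      ext y
      rw [hcon y]
      rfl
    set y : MonoidAlgebra k A := single z⁻¹ (c * x.coeff z)⁻¹ with hy
    have h1 : tra (y * x) * f = f := by
      rw [htr, mul_assoc y x f, hxf, hy, ScBAux.lam_single, inv_inv]
      have : c * ((c * x.coeff z)⁻¹ * x.coeff z) = 1 := by
        field_simp
      rw [this, one_smul]
    refine ⟨Fintype.card A, fun i => single ((Fintype.equivFin A).symm i) (1 : k) * y,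
      fun i => single ((Fintype.equivFin A).symm i)⁻¹ (1 : k) * f, ?_⟩
    have h2 : tra (y * x) * f =
        ∑ g : A, single g (1 : k) * y * x * (single g⁻¹ (1 : k) * f) := by
      unfold tra
      rw [Finset.sum_mul]
      refine Finset.sum_congr rfl fun g _ => ?_
      simp only [mul_assoc]
    conv_rhs => rw [← h1, h2]
    exact Fintype.sum_equiv (Fintype.equivFin A).symm _ _ fun i => rfl
  have : FiniteDimensional k (MonoidAlgebra k A) := by
    refine ⟨⟨Finset.univ.image fun g : A => single g (1 : k), ?_⟩⟩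
    rw [eq_top_iff]
    intro x _
    rw [ScBAux.eq_sum x]
    refine Submodule.sum_mem _ fun g _ => Submodule.smul_mem _ _ (Submodule.subset_span ?_)
    exact Finset.mem_coe.2 (Finset.mem_image_of_mem _ (Finset.mem_univ g))
  obtain ⟨i, hi0, hii, hif, hir⟩ :=
    exists_rank_one (k := k) (R := MonoidAlgebra k A) hf.blk.ne_zero hff hfc hS
  choose φ hφ using fun g : A => hir (single g (1 : k))
  set ν : k := i.coeff 1 with hν
  have hfi : f * i = i := by rw [← hfc, hif]
  -- (2)
  have h2 : ∀ g : A, i.coeff g⁻¹ = φ g * ν := by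
    intro g
    have h1 : (i * single g (1 : k) * i).coeff 1 = i.coeff g⁻¹ := by
      rw [ScBAux.lam_comm, ← mul_assoc, hii, ScBAux.lam_comm, ScBAux.lam_single, one_mul]
    rw [← h1, hφ, coeff_smul, Finsupp.smul_apply, smul_eq_mul]
  set S : k := ∑ g : A, φ g * φ g⁻¹ with hSd
  have h3 : ν * S = 1 := by
    have h4 : (∑ g : A, i.coeff g * φ g) • i = i := by
      calc (∑ g : A, i.coeff g * φ g) • i = ∑ g : A, i.coeff g • (i * single g (1 : k) * i) := by
            rw [Finset.sum_smul]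
            refine Finset.sum_congr rfl fun g _ => ?_
            rw [hφ, mul_smul]
        _ = i * (∑ g : A, i.coeff g • single g (1 : k)) * i := by
            rw [Finset.mul_sum, Finset.sum_mul]
            refine Finset.sum_congr rfl fun g _ => ?_
            rw [mul_smul_comm, smul_mul_assoc]
        _ = i := by rw [← ScBAux.eq_sum i, hii, hii]
    have h5 : (∑ g : A, i.coeff g * φ g) = 1 := by
      by_contra hne
      apply hi0
      have h6 : ((∑ g : A, i.coeff g * φ g) - 1) • i = 0 := by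
        rw [sub_smul, h4, one_smul, sub_self]
      exact (smul_eq_zero.1 h6).resolve_left (sub_ne_zero.2 hne)
    rw [← h5, hSd, Finset.mul_sum]
    refine Finset.sum_congr rfl fun g _ => ?_
    have h6 := h2 g⁻¹
    rw [inv_inv] at h6
    rw [h6]
    ring
  -- (3)
  have h4 : i * tra i * i = S • i := by
    unfold tra
    rw [Finset.mul_sum, Finset.sum_mul, hSd, Finset.sum_smul]
    refine Finset.sum_congr rfl fun g _ => ?_
    calc i * (single g (1 : k) * i * single g⁻¹ (1 : k)) * i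
        = (i * single g (1 : k) * i) * single g⁻¹ (1 : k) * i := by simp only [mul_assoc]
      _ = φ g • (i * single g⁻¹ (1 : k) * i) := by
          rw [hφ, smul_mul_assoc, smul_mul_assoc]
      _ = (φ g * φ g⁻¹) • i := by rw [hφ, mul_smul]
  have h5 : i * tra i * i = (c * ν) • i := by
    calc i * tra i * i = i * (tra i * f) * i := by
          rw [← mul_assoc i (tra i) f, mul_assoc (i * tra i) f i, hfi]
      _ = (c * ν) • i := by
          rw [htr i, hif, mul_smul_comm, smul_mul_assoc, hif, hii]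
  have h6 : c * ν = S := by
    by_contra hne
    apply hi0
    have h7 : (c * ν - S) • i = 0 := by rw [sub_smul, ← h5, ← h4, sub_self]
    exact (smul_eq_zero.1 h7).resolve_left (sub_ne_zero.2 hne)
  refine ⟨c, ν, hc, ?_, ?_⟩
  · rw [← h3, ← h6]
    ring
  -- (4)
  have hp : p.Prime := Fact.out
  have h7 := ChC.Fl_pow (p := p) (k := k) (G := A) (fun x => if x = 1 then 1 else 0)
    (fun x y => by
      have : x * y = 1 ↔ y * x = 1 := ⟨mul_eq_one_comm.1, mul_eq_one_comm.1⟩
      by_cases hxy : x * y = 1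
      · rw [if_pos hxy, if_pos (this.1 hxy)]
      · rw [if_neg hxy, if_neg (fun h' => hxy (this.2 h'))]) i 1
  rw [pow_one, ChC.Fl_apply, Finset.sum_eq_single (1 : A)] at h7
  rotate_left
  · intro b _ hb
    rw [if_neg hb, mul_zero]
  · intro h'
    exact absurd (Finset.mem_univ _) h'
  rw [if_pos rfl, mul_one, IsIdempotentElem.pow_eq hii hp.pos.ne'] at h7
  have h8 : (om p k A * i).coeff 1 = ν := by
    have h9 : om p k A * i = i := by
      rw [← hfi, ← mul_assoc, om_dz hf]
    rw [h9]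
  have h10 : (om p k A * i).coeff 1 = ∑ u : A, i.coeff u * (if u ^ p = 1 then 1 else 0) := by
    rw [coeff_mul_fin]
    refine Fintype.sum_equiv (Equiv.inv A) _ _ fun u => ?_
    have h11 : (om p k A).coeff u = ((omf p u : ℤ) : k) := zel_coeff _ _
    rw [h11, Equiv.inv_apply, mul_one, inv_pow, inv_eq_one]
    unfold omf
    split_ifs
    · rw [Int.cast_one, one_mul, mul_one]
    · rw [Int.cast_zero, zero_mul, mul_zero]
  have h12 : ν ^ p = (∑ u : A, i.coeff u * (if u ^ p = 1 then 1 else 0)) ^ p := by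
    rw [← h10, h8]
  have hE : ExpChar k p := ExpChar.prime hp
  rw [h12, sum_pow_char p, hν, h7]
  refine Finset.sum_congr rfl fun u _ => ?_
  rw [mul_pow]
  split_ifs
  · rw [one_pow]
  · rw [zero_pow hp.ne_zero]

/-- the power `K ^ j` is `1` on the blocks of defect zero if `p - 1` divides `2 j` -/
theorem kE_pow_dz' {f : MonoidAlgebra k A} (hf : IsDZ p (⊤ : Subgroup A) f) {j : ℕ}
    (hj : p - 1 ∣ 2 * j) : (kE k A) ^ j * f = f := by
  obtain ⟨c, ν, hc, h1, h2⟩ := kE_dz hf
  have hp : p.Prime := Fact.out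
  have h3 : ∀ n : ℕ, (kE k A) ^ n * f = c ^ n • f := by
    intro n
    induction n with
    | zero => rw [pow_zero, pow_zero, one_mul, one_smul]
    | succ n ih =>
      rw [pow_succ, mul_assoc, hc, mul_smul_comm, ih, smul_smul, pow_succ, mul_comm]
  have hν : ν ≠ 0 := by
    rintro rfl
    rw [zero_pow two_ne_zero, mul_zero] at h1
    exact zero_ne_one h1
  have h6 : ν ^ (p - 1) = 1 := by
    have h5 : ν ^ (p - 1) * ν = 1 * ν := by
      rw [one_mul, ← pow_succ, Nat.sub_add_cancel hp.one_lt.le, h2]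
    exact mul_right_cancel₀ hν h5
  have h4 : (ν ^ 2) ^ j = 1 := by
    obtain ⟨m, hm⟩ := hj
    rw [← pow_mul, hm, pow_mul, h6, one_pow]
  have h5 : c ^ j = 1 := by
    calc c ^ j = c ^ j * (ν ^ 2) ^ j := by rw [h4, mul_one]
      _ = (c * ν ^ 2) ^ j := (mul_pow _ _ _).symm
      _ = 1 := by rw [h1, one_pow]
  rw [h3, h5, one_smul]

/-- for odd `p` the power `K ^ ((p - 1) / 2)` is `1` on the blocks of defect zero -/
theorem kE_pow_dz {f : MonoidAlgebra k A} (hf : IsDZ p (⊤ : Subgroup A) f) {j : ℕ}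
    (hj : p = 2 * j + 1) : (kE k A) ^ j * f = f :=
  kE_pow_dz' hf (by rw [hj, Nat.add_sub_cancel])

end Pool.Agent.Lib.P0c8ca5.Tg
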