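import Mathlib
import Pool.Agent.Lib.P0c8ca5V.TDzB
import Pool.Agent.Lib.P0c8ca5V.TCnt
import Pool.Agent.Lib.P0c8ca5Bx.TrS
import Pool.Agent.Lib.P0c8ca5By.Cv
import Pool.Agent.Lib.P0c8ca5Tg.ScB
import Pool.Agent.Lib.P0c8ca5Tg.KNil

/-!
# TrK: the traces of `hpe * z` and of `K ^ j * z` agree, `j ≠ 0`, `p - 1 ∣ 2 j`

PROOF. `trE_kE`: a copy of `trE_sec` (Bx.TrS) with `kE k A ^ j * z` in place of `sec p z`: on a block `b` with `IsDZ`: `K ^ j * z * b = z * b` (`kE_pow_dz`, commutativity), otherwise `K ^ j * z * b` is nilpotent (`kE_nonDZ`, `j ≠ 0` because `p` is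
prime, so `p ≠ 1`; `Commute.isNilpotent_mul_..`).
`zel_cvj`: induction with `zel_cvl` (By.Cv). `CF_cvj`: `CF_cvl`, `CF_kc`.
`nA_kE`: as `nA_pf` (Bx.ABa), `k = AlgebraicClosure (ZMod p)`: `nA_trE` (P0c8ca5V.TCnt) and `nE_trE` (R2b) for the class function `cvj m j`.
-/

namespace Pool.Agent.Lib.P0c8ca5.Tg

open MonoidAlgebra Bx By

set_option linter.unusedSectionVars false

theorem trE_kE {p : ℕ} {k : Type*} [Field k] {A : Type*} [Group A] [Fintype A]
    [Fact p.Prime] [CharP k p] [IsAlgClosed k] {j : ℕ} (hj0 : j ≠ 0) (hj : p - 1 ∣ 2 * j)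
    {z : MonoidAlgebra k A} (hz : z ∈ fixAlg k (⊤ : Subgroup A) ⊤) :
    trE k (⊤ : Subgroup A) (fun x => (hpe p k A * z).coeff x)
      = trE k (⊤ : Subgroup A) (fun x => (kE k A ^ j * z).coeff x) := by
  classical
  have hone : (1 : MonoidAlgebra k A) ∈ fixAlg k (⊤ : Subgroup A) ⊤ := (fixAlg k _ _).one_mem
  have hfin : {b : MonoidAlgebra k A | IsBlock (⊤ : Subgroup A) b ∧ b * 1 ≠ 0}.Finite :=
    (finite_isBlock (k := k) (⊤ : Subgroup A)).subset (fun b hb => hb.1)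
  have hB : ∀ b, b ∈ hfin.toFinset ↔ IsBlock (⊤ : Subgroup A) b ∧ b * 1 ≠ 0 := by
    intro b
    rw [Set.Finite.mem_toFinset]
    rfl
  generalize hfin.toFinset = B at hB
  have hsum : ∑ b ∈ B, b = 1 := WSumAux.sum_blocks (p := p) hone (one_mul 1) B hB
  have hK : kE k A ∈ fixAlg k (⊤ : Subgroup A) ⊤ := zel_mem CF_kc
  have hKp : ∀ i : ℕ, kE k A ^ i ∈ fixAlg k (⊤ : Subgroup A) ⊤ := fun i =>
    (fixAlg k (⊤ : Subgroup A) ⊤).pow_mem hK i
  have e1 : hpe p k A * z = ∑ b ∈ B, hpe p k A * z * b := by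
    rw [← Finset.mul_sum, hsum, mul_one]
  have e2 : kE k A ^ j * z = ∑ b ∈ B, kE k A ^ j * z * b := by
    rw [← Finset.mul_sum, hsum, mul_one]
  have key : ∀ b ∈ B, trE k (⊤ : Subgroup A) (fun x => (hpe p k A * z * b).coeff x)
      = trE k (⊤ : Subgroup A) (fun x => (kE k A ^ j * z * b).coeff x) := by
    intro b hb
    obtain ⟨hb1, _⟩ := (hB b).1 hb
    have hzb : z * b = b * z := commute_of (mem_fixAlg.1 hz).1 (mem_fixAlg.1 hb1.mem).2
    have e3 : hpe p k A * z * b = hpe p k A * b * z := by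
      rw [mul_assoc, hzb, ← mul_assoc]
    by_cases hdz : IsDZ p (⊤ : Subgroup A) b
    · have h1 : hpe p k A * z * b = z * b := by
        rw [e3, hpe_mul_dz hdz, hzb]
      have h3 : kE k A ^ j * z * b = z * b := by
        rw [mul_assoc, hzb, ← mul_assoc, kE_pow_dz' hdz hj]
      rw [h1, h3]
    · have hhb : hpe p k A * b ∈ fixAlg k (⊤ : Subgroup A) ⊤ :=
        (fixAlg k (⊤ : Subgroup A) ⊤).mul_mem hpe_mem hb1.mem
      have hm1 : hpe p k A * z * b ∈ fixAlg k (⊤ : Subgroup A) ⊤ := by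
        rw [e3]
        exact (fixAlg k (⊤ : Subgroup A) ⊤).mul_mem hhb hz
      have hm2 : kE k A ^ j * z * b ∈ fixAlg k (⊤ : Subgroup A) ⊤ :=
        (fixAlg k (⊤ : Subgroup A) ⊤).mul_mem
          ((fixAlg k (⊤ : Subgroup A) ⊤).mul_mem (hKp j) hz) hb1.mem
      have hc : Commute (hpe p k A * b) z :=
        commute_of (mem_fixAlg.1 hhb).1 (mem_fixAlg.1 hz).2
      have hn1 : IsNilpotent (hpe p k A * z * b) := by
        rw [e3]
        exact hc.isNilpotent_mul_right (hpe_nonDZ hb1 hdz)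
      have hn2 : IsNilpotent (kE k A ^ j * z * b) := by
        obtain ⟨i, rfl⟩ := Nat.exists_eq_succ_of_ne_zero hj0
        have hiz : kE k A ^ i * z ∈ fixAlg k (⊤ : Subgroup A) ⊤ :=
          (fixAlg k (⊤ : Subgroup A) ⊤).mul_mem (hKp i) hz
        have hcb : kE k A ^ i * z * b = b * (kE k A ^ i * z) :=
          commute_of (mem_fixAlg.1 hiz).1 (mem_fixAlg.1 hb1.mem).2
        have e4 : kE k A ^ (i + 1) * z * b = kE k A * b * (kE k A ^ i * z) := by
          rw [pow_succ', mul_assoc, mul_assoc, ← mul_assoc (kE k A ^ i), hcb, ← mul_assoc]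
        have hKb : kE k A * b ∈ fixAlg k (⊤ : Subgroup A) ⊤ :=
          (fixAlg k (⊤ : Subgroup A) ⊤).mul_mem hK hb1.mem
        have hc2 : Commute (kE k A * b) (kE k A ^ i * z) :=
          commute_of (mem_fixAlg.1 hKb).1 (mem_fixAlg.1 hiz).2
        rw [Nat.succ_eq_add_one, e4]
        exact hc2.isNilpotent_mul_right (kE_nonDZ hb1 hdz)
      rw [trE_nilpotent (p := p) (mem_fixAlg.1 hm1).1 (mem_fixAlg.1 hm1).2 hn1,
        trE_nilpotent (p := p) (mem_fixAlg.1 hm2).1 (mem_fixAlg.1 hm2).2 hn2]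
  calc trE k (⊤ : Subgroup A) (fun x => (hpe p k A * z).coeff x)
      = trE k (⊤ : Subgroup A) (fun x => (∑ b ∈ B, hpe p k A * z * b).coeff x) := by rw [← e1]
    _ = ∑ b ∈ B, trE k (⊤ : Subgroup A) (fun x => (hpe p k A * z * b).coeff x) :=
        TDzBAux.trE_sum _ _ _
    _ = ∑ b ∈ B, trE k (⊤ : Subgroup A) (fun x => (kE k A ^ j * z * b).coeff x) :=
        Finset.sum_congr rfl key
    _ = trE k (⊤ : Subgroup A) (fun x => (∑ b ∈ B, kE k A ^ j * z * b).coeff x) :=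
        (TDzBAux.trE_sum _ _ _).symm
    _ = trE k (⊤ : Subgroup A) (fun x => (kE k A ^ j * z).coeff x) := by rw [← e2]

theorem zel_cvj {A : Type*} [Group A] [Finite A] {k : Type*} [Field k] (m : A → ℤ) (j : ℕ) :
    zel k (cvj m j) = kE k A ^ j * zel k m := by
  induction j with
  | zero => rw [pow_zero, one_mul]; rfl
  | succ j ih =>
    have e : cvj m (j + 1) = cvl (kc (A := A)) (cvj m j) := rfl
    rw [e, zel_cvl, ih, pow_succ', mul_assoc]
    rfl

theorem CF_cvj {A : Type*} [Group A] [Finite A] {m : A → ℤ} (hm : CF m) (j : ℕ) :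
    CF (cvj m j) := by
  induction j with
  | zero => exact hm
  | succ j ih => exact CF_cvl CF_kc ih

theorem nA_kE {p : ℕ} [Fact p.Prime] {A : Type*} [Group A] [Finite A] {j : ℕ}
    (hj0 : j ≠ 0) (hj : p - 1 ∣ 2 * j) {m : A → ℤ} (hm : CF m) :
    (p : ℤ) * (Nat.card A : ℤ) ∣ nA p (⊤ : Subgroup A) m - nE (⊤ : Subgroup A) (cvj m j) := by
  classical
  cases nonempty_fintype A
  obtain ⟨t, h1, h2⟩ := nA_trE (k := AlgebraicClosure (ZMod p)) (p := p) hm
  obtain ⟨t', h3, h4⟩ := nE_trE (k := AlgebraicClosure (ZMod p)) (⊤ : Subgroup A) (m := cvj m j)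
    (fun h _ x => CF_cvj hm j h x)
  have h5 := trE_kE (p := p) (k := AlgebraicClosure (ZMod p)) hj0 hj (z := zel _ m) (zel_mem hm)
  have h6 : ((t - t' : ℤ) : AlgebraicClosure (ZMod p)) = 0 := by
    rw [Int.cast_sub, h2, h4, h5, sub_eq_zero, ← zel_cvj]
    rfl
  have h7 : (p : ℤ) ∣ t - t' := (CharP.intCast_eq_zero_iff (AlgebraicClosure (ZMod p)) p _).1 h6
  obtain ⟨c, hc'⟩ := h7
  rw [h1, h3, Subgroup.card_top, ← mul_sub, hc']
  exact ⟨c, by ring⟩

end Pool.Agent.Lib.P0c8ca5.Tg
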