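import Mathlib
import Pool.Agent.Lib.P0c8ca5Bx.Fin
import Pool.Agent.Lib.P0c8ca5By.Fam
import Pool.Agent.Lib.P0c8ca5By.Mas
import Pool.Agent.Lib.P0c8ca5Tg.TrK
import Pool.Agent.Lib.P0c8ca5Tg.CntG
import Pool.Agent.Lib.P0c8ca5Tg.PG
import Pool.Agent.Lib.P0c8ca5Tg.ClsG

/-!
# The blockwise weight conjecture and surfaces of higher genus

Let `j ≠ 0` and `p - 1 ∣ 2 j` (for `p = 2, 3` any `j ≠ 0`).
* `bQ_genus`: one group with `O_p(A) = 1`: the tuples for genus `j + 1` and the pairs, by the p'-part of the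
  commutator.
* `baw_iff_genus`: the blockwise weight conjecture for the prime `p` holds if and only if for all finite
  groups `G` with `O_p(G) = 1` and all classes `C` of p-regular elements the number of the pairs `(a, b)` with
  `[a, b] ∈ C` and the number of the tuples `(a_0, b_0, ..., a_j, b_j)` with `[a_0, b_0] ... [a_j, b_j] ∈ C`
  that generate groups containing `O^p(G)` are congruent modulo `p |G|_p`.
-/

namespace Pool.Agent.Lib.P0c8ca5.Tg

open MonoidAlgebra Bx By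

universe u v

section
variable {p : ℕ} [Fact p.Prime]

theorem nW_DG {A : Type*} [Group A] [Finite A] {j : ℕ} (hj0 : j ≠ 0) (hj : p - 1 ∣ 2 * j)
    {m : A → ℤ} (hm : IsWt p ⊤ m) : (p : ℤ) * (Nat.card A : ℤ) ∣ nW (⊤ : Subgroup A) (DG p j m) := by
  have hc : CF m := CF_of_wt hm
  have e : nW (⊤ : Subgroup A) (DG p j m) = nE (⊤ : Subgroup A) (cvj m j) -
      nE (⊤ : Subgroup A) (pf p m) := by
    rw [← nW_wG, ← nW_PnG j (pf p m) (⊤ : Subgroup A), ← nW_sub]
    rfl
  rw [e]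
  have h1 := nA_kE hj0 hj hc
  have h2 := nA_pf (p := p) hm
  have h3 := dvd_sub h2 h1
  have e2 : nE (⊤ : Subgroup A) (cvj m j) - nE (⊤ : Subgroup A) (pf p m) =
      nA p (⊤ : Subgroup A) m - nE (⊤ : Subgroup A) (pf p m) -
      (nA p (⊤ : Subgroup A) m - nE (⊤ : Subgroup A) (cvj m j)) := by ring
  rw [e2]
  exact h3

/-- one group -/
theorem bQ_genus {A : Type u} [Group A] [Finite A] {j : ℕ} (hj0 : j ≠ 0) (hj : p - 1 ∣ 2 * j)
    (hA : NoP p (⊤ : Subgroup A)) {m : A → ℤ} (hm : IsWt p ⊤ m) :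
    (p : ℤ) * (ordProj[p] (Nat.card A) : ℕ) ∣
      bW p (⊤ : Subgroup A) (wG (j + 1) m) - bQ p (⊤ : Subgroup A) (pf p m) := by
  have h4 := bW_family (p := p) (fun (G : Type u) [Group G] m => DG p j m)
    (fun G _ _ U m t => DG_dn p j U m t) (fun G _ _ m hm => CFt_DG p j (CF_of_wt hm))
    (fun G _ _ m hm => nW_DG hj0 hj hm) A m hm hA
  have e1 : bW p (⊤ : Subgroup A) (DG p j m) = bW p (⊤ : Subgroup A) (wG (j + 1) m) -
      bQ p (⊤ : Subgroup A) (pf p m) := by
    rw [← bW_PnG p j (pf p m) (⊤ : Subgroup A), ← bW_sub]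
    rfl
  rw [← e1]
  exact h4

theorem bQ_sf {A : Type*} [Group A] [Finite A] {m : A → ℤ} (hm : IsWt p ⊤ m) :
    bQ p (⊤ : Subgroup A) (sf p m) = bQ p (⊤ : Subgroup A) (pf p m) -
      bQ p (⊤ : Subgroup A) m := by
  classical
  have := Fintype.ofFinite A
  unfold bQ
  rw [finsum_eq_sum_of_fintype, finsum_eq_sum_of_fintype, finsum_eq_sum_of_fintype,
    ← Finset.sum_sub_distrib]
  refine Finset.sum_congr rfl (fun t _ => ?_)
  split_ifs
  · exact sf_eq hm _
  · rw [sub_zero]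

/-- one group: the triples and the difference of the two genera -/
theorem bQ_genus' {A : Type u} [Group A] [Finite A] {j : ℕ} (hj0 : j ≠ 0) (hj : p - 1 ∣ 2 * j)
    (hA : NoP p (⊤ : Subgroup A)) {m : A → ℤ} (hm : IsWt p ⊤ m) :
    (p : ℤ) * (ordProj[p] (Nat.card A) : ℕ) ∣
      bQ p (⊤ : Subgroup A) (sf p m) -
      (bW p (⊤ : Subgroup A) (wG (j + 1) m) - bQ p (⊤ : Subgroup A) m) := by
  have h := bQ_genus hj0 hj hA hm
  rw [bQ_sf hm]
  have e : bQ p (⊤ : Subgroup A) (pf p m) - bQ p (⊤ : Subgroup A) m -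
      (bW p (⊤ : Subgroup A) (wG (j + 1) m) - bQ p (⊤ : Subgroup A) m) =
      -(bW p (⊤ : Subgroup A) (wG (j + 1) m) - bQ p (⊤ : Subgroup A) (pf p m)) := by ring
  rw [e, dvd_neg]
  exact h

section cls
variable {A : Type u} [Group A] [Finite A]

theorem opr_iff (K : Subgroup A) :
    Opr p (⊤ : Subgroup A) ≤ K ↔ ∀ w : A, Preg p w → w ∈ K := by
  unfold Opr
  rw [Subgroup.closure_le]
  exact ⟨fun h w hw => h ⟨Subgroup.mem_top w, hw⟩, fun h w hw => h w hw.2⟩

open Classical in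
/-- the indicator function of the inverse class -/
noncomputable def icl (c : A) (x : A) : ℤ := if IsConj c x⁻¹ then 1 else 0

theorem icl_wt {c : A} (hc : Preg p c) : IsWt p ⊤ (icl c) := by
  classical
  refine ⟨fun h _ x => ?_, fun x hx => ?_⟩
  · unfold icl
    have e : (h * x * h⁻¹)⁻¹ = h * x⁻¹ * h⁻¹ := by group
    rw [e]
    have h1 : IsConj c (h * x⁻¹ * h⁻¹) ↔ IsConj c x⁻¹ := by
      have h2 : IsConj x⁻¹ (h * x⁻¹ * h⁻¹) := isConj_iff.2 ⟨h, rfl⟩
      exact ⟨fun h3 => h3.trans h2.symm, fun h3 => h3.trans h2⟩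
    simp only [h1]
  · unfold icl at hx
    have h1 : IsConj c x⁻¹ := by
      by_contra h2
      exact hx (if_neg h2)
    obtain ⟨g, hg⟩ := isConj_iff.1 h1
    have h2 : Preg p x⁻¹ := by
      rw [← hg]
      exact (preg_cj g c).2 hc
    unfold Preg at h2 ⊢
    rwa [orderOf_inv] at h2

open Classical in
theorem card_wG (h : ℕ) (c : A) :
    bW p (⊤ : Subgroup A) (wG h (icl c)) =
      (Nat.card {t : Fin h ⊕ Fin h → A // IsConj c (prc t) ∧
        ∀ w : A, Preg p w → w ∈ Subgroup.closure (Set.range t)} : ℤ) := by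
  have := Fintype.ofFinite A
  unfold bW
  rw [finsum_eq_sum_of_fintype, Nat.card_eq_fintype_card, Fintype.card_subtype,
    Finset.card_filter]
  push_cast
  refine Finset.sum_congr rfl fun t _ => ?_
  unfold wG icl
  rw [inv_inv]
  have e : gt t = Subgroup.closure (Set.range t) := rfl
  rw [opr_iff, e]
  by_cases h1 : IsConj c (prc t) <;>
    by_cases h2 : ∀ w : A, Preg p w → w ∈ Subgroup.closure (Set.range t)
  · rw [if_pos ⟨le_top, h2⟩, if_pos h1, if_pos ⟨h1, h2⟩]
  · rw [if_neg (fun h3 => h2 h3.2), if_neg (fun h3 => h2 h3.2)]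
  · rw [if_pos ⟨le_top, h2⟩, if_neg h1, if_neg (fun h3 => h1 h3.1)]
  · rw [if_neg (fun h3 => h2 h3.2), if_neg (fun h3 => h2 h3.2)]

open Classical in
theorem card_pf (c : A) :
    bQ p (⊤ : Subgroup A) (pf p (icl c)) =
      (Nat.card {y : A × A // IsConj c (pr p (cmt y.1 y.2)) ∧
        ∀ w : A, Preg p w → w ∈ Subgroup.closure ({y.1, y.2} : Set A)} : ℤ) := by
  have := Fintype.ofFinite A
  unfold bQ
  rw [finsum_eq_sum_of_fintype, Nat.card_eq_fintype_card, Fintype.card_subtype,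
    Finset.card_filter]
  push_cast
  refine Finset.sum_congr rfl fun t _ => ?_
  unfold pf icl
  rw [pr_inv, inv_inv]
  have e : gn t = Subgroup.closure {t.1, t.2} := rfl
  rw [opr_iff, e]
  by_cases h1 : IsConj c (pr p (cmt t.1 t.2)) <;>
    by_cases h2 : ∀ w : A, Preg p w → w ∈ Subgroup.closure {t.1, t.2}
  · rw [if_pos ⟨le_top, h2⟩, if_pos h1, if_pos ⟨h1, h2⟩]
  · rw [if_neg (fun h3 => h2 h3.2), if_neg (fun h3 => h2 h3.2)]
  · rw [if_pos ⟨le_top, h2⟩, if_neg h1, if_neg (fun h3 => h1 h3.1)]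
  · rw [if_neg (fun h3 => h2 h3.2), if_neg (fun h3 => h2 h3.2)]

/-- **Stability (unconditional).** The numbers of the tuples for genus `j + 1` modulo `p |A|_p` do not depend
on `j`; they are given by the pairs and the p'-part of the commutator. -/
theorem genus_stable {j : ℕ} (hj0 : j ≠ 0) (hj : p - 1 ∣ 2 * j) (hA : NoP p (⊤ : Subgroup A))
    {c : A} (hc : Preg p c) :
    Nat.card {t : Fin (j + 1) ⊕ Fin (j + 1) → A // IsConj c (prc t) ∧
        ∀ w : A, Preg p w → w ∈ Subgroup.closure (Set.range t)} ≡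
      Nat.card {y : A × A // IsConj c (pr p (cmt y.1 y.2)) ∧
        ∀ w : A, Preg p w → w ∈ Subgroup.closure ({y.1, y.2} : Set A)}
        [MOD p * ordProj[p] (Nat.card A)] := by
  have h := bQ_genus hj0 hj hA (icl_wt hc)
  rw [card_wG, card_pf] at h
  refine (Nat.modEq_iff_dvd.2 ?_).symm
  push_cast
  exact_mod_cast h

end cls

/-- **Genus one and genus (p + 1) / 2.** -/
theorem baw_iff_genus {j : ℕ} (hj0 : j ≠ 0) (hj : p - 1 ∣ 2 * j) {k : Type v} [Field k]
    [IsAlgClosed k] [CharP k p] :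
    (∀ (G : Type u) [Group G] [Finite G] (b : MonoidAlgebra k G), IsBlock (⊤ : Subgroup G) b →
      gap p (⊤ : Subgroup G) ⊤ b = 0) ↔
    (∀ (G : Type u) [Group G] [Finite G], NoP p (⊤ : Subgroup G) → ∀ c : G, Preg p c →
      Nat.card {t : Fin (j + 1) ⊕ Fin (j + 1) → G // IsConj c (prc t) ∧
        ∀ w : G, Preg p w → w ∈ Subgroup.closure (Set.range t)} ≡
      Nat.card {y : G × G // IsConj c (cmt y.1 y.2) ∧
        ∀ w : G, Preg p w → w ∈ Subgroup.closure ({y.1, y.2} : Set G)}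
        [MOD p * ordProj[p] (Nat.card G)]) := by
  constructor
  · intro h G _ _ hG c hc
    have h1 := (bawp_iff_bQ (p := p) (k := k)).1 (fun G _ _ b hb => ⟨0, by
      rw [h G b hb]
      simp⟩)
    exact (wG_cls (A := G) (j + 1) (p * ordProj[p] (Nat.card G))).1
      (fun m hm => by
        have h2 := (dvd_sub_right (h1 G m hm hG)).1 (bQ_genus' hj0 hj hG hm)
        exact_mod_cast h2) c hc
  · intro h
    refine amp (p := p) ?_
    refine (bawp_iff_bQ (p := p) (k := k)).2 (fun G _ _ m hm hG => ?_)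
    have h2 := (wG_cls (A := G) (j + 1) (p * ordProj[p] (Nat.card G))).2
      (fun c hc => h G hG c hc) m hm
    have h3 := dvd_add (bQ_genus' hj0 hj hG hm) (by exact_mod_cast h2)
    rwa [sub_add_cancel] at h3

end

end Pool.Agent.Lib.P0c8ca5.Tg
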